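import Mathlib
import Pool.Graph.R_seed8.Y733.FF.Main
import Pool.Graph.R_seed8.Y733.UD.Low

/-!
# The minimal discriminant at one prime of a curve with integral invariant
-/

set_option autoImplicit false
set_option linter.unusedSectionVars false

namespace Pool.Agent.H85.F

open NumberField IsDedekindDomain Pool.Agent.H691R3 Pool.Agent.W223.AK Pool.Agent.Y733.LS
open Pool.Agent.Y733.FF
open Pool.Agent.TH876.FH (GoodAt)

variable {K : Type} [Field K] [NumberField K]

theorem two_three (v : Pr K) (h : fv v (6 : K) = 1) : fv v (2 : K) = 1 ∧ fv v (3 : K) = 1 := by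
  have h2 : fv v (2 : K) ≤ 1 := (fv_Na v).ofNat 2
  have h3 : fv v (3 : K) ≤ 1 := (fv_Na v).ofNat 3
  have p2 : 0 < fv v (2 : K) := (fv v).pos (by norm_num)
  have p3 : 0 < fv v (3 : K) := (fv v).pos (by norm_num)
  rw [show (6 : K) = 2 * 3 by norm_num, map_mul] at h
  constructor
  · nlinarith
  · nlinarith

theorem fv48 (v : Pr K) (h2 : fv v (2 : K) = 1) (h3 : fv v (3 : K) = 1) :
    fv v (48 : K) = 1 ∧ fv v (864 : K) = 1 ∧ fv v (1728 : K) = 1 := by
  refine ⟨?_, ?_, ?_⟩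
  · rw [show (48 : K) = 2 ^ 4 * 3 by norm_num, map_mul, map_pow, h2, h3]
    norm_num
  · rw [show (864 : K) = 2 ^ 5 * 3 ^ 3 by norm_num, map_mul, map_pow, map_pow, h2, h3]
    norm_num
  · rw [show (1728 : K) = 2 ^ 6 * 3 ^ 3 by norm_num, map_mul, map_pow, map_pow, h2, h3]
    norm_num

theorem j_sub (E : WeierstrassCurve K) (hE : E.Δ ≠ 0) :
    E.c₄ ^ 3 / E.Δ - 1728 = E.c₆ ^ 2 / E.Δ := by
  have hrel := E.c_relation
  rw [div_sub' hE]
  congr 1
  linear_combination (-1 : K) * hrel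

theorem c4_ne {E : WeierstrassCurve K} (h : E.c₄ ^ 3 / E.Δ ≠ 0) : E.c₄ ≠ 0 := by
  intro h4
  apply h
  rw [h4]
  simp

theorem c6_ne {E : WeierstrassCurve K} (hE : E.Δ ≠ 0) (h : E.c₄ ^ 3 / E.Δ - 1728 ≠ 0) :
    E.c₆ ≠ 0 := by
  intro h4
  apply h
  rw [j_sub E hE, h4]
  simp

/-- one of `j`, `j - 1728` is a unit -/
theorem one_zero (v : Pr K) (h2 : fv v (2 : K) = 1) (h3 : fv v (3 : K) = 1) {j : K} {r s : ℕ}
    (hr : fv v j = (Nv v) ^ (-(r : ℤ))) (hs : fv v (j - 1728) = (Nv v) ^ (-(s : ℤ))) :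
    r = 0 ∨ s = 0 := by
  have hN : 1 < Nv v := Nv_one_lt v
  by_contra hcon
  push Not at hcon
  have e := (fv48 v h2 h3).2.2
  have h4 : fv v (j - (j - 1728)) < 1 := by
    refine (fv_Na v).lt_sub ?_ ?_
    · rw [hr]
      exact zpow_lt_one_of_neg₀ hN (by omega)
    · rw [hs]
      exact zpow_lt_one_of_neg₀ hN (by omega)
  rw [show j - (j - 1728) = (1728 : K) by ring, e] at h4
  exact lt_irrefl _ h4

/-- the exponents -/
theorem rel (v : Pr K) (E : WeierstrassCurve K) (hE : E.Δ ≠ 0) (h4 : E.c₄ ≠ 0) (h6 : E.c₆ ≠ 0)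
    {r s : ℕ} (hr : fv v (E.c₄ ^ 3 / E.Δ) = (Nv v) ^ (-(r : ℤ)))
    (hs : fv v (E.c₄ ^ 3 / E.Δ - 1728) = (Nv v) ^ (-(s : ℤ))) :
    ∃ a b d : ℤ, fv v E.c₄ = (Nv v) ^ (-a) ∧ fv v E.c₆ = (Nv v) ^ (-b) ∧
      fv v E.Δ = (Nv v) ^ (-d) ∧ 3 * a = d + r ∧ 2 * b = d + s := by
  have hN : 1 < Nv v := Nv_one_lt v
  have hN0 : 0 < Nv v := lt_trans one_pos hN
  obtain ⟨a, ha⟩ := fv_zpow v h4
  obtain ⟨b, hb⟩ := fv_zpow v h6
  obtain ⟨d, hd⟩ := fv_zpow v hE
  refine ⟨-a, -b, -d, by rw [neg_neg]; exact ha, by rw [neg_neg]; exact hb,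
    by rw [neg_neg]; exact hd, ?_, ?_⟩
  · rw [map_div₀, map_pow, ha, hd, ← zpow_natCast, ← zpow_mul, ← zpow_sub₀ hN0.ne'] at hr
    have := (zpow_right_injective₀ hN0 hN.ne') hr
    push_cast at this
    linarith
  · rw [j_sub E hE, map_div₀, map_pow, hb, hd, ← zpow_natCast, ← zpow_mul,
      ← zpow_sub₀ hN0.ne'] at hs
    have := (zpow_right_injective₀ hN0 hN.ne') hs
    push_cast at this
    linarith

/-- the exponent of the minimal discriminant -/
theorem disc_int (v : Pr K) (E : WeierstrassCurve K) (hE : E.Δ ≠ 0) (h4 : E.c₄ ≠ 0)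
    (h6 : E.c₆ ≠ 0) (h2 : fv v (2 : K) = 1) (h3 : fv v (3 : K) = 1) {r s : ℕ}
    (hr : fv v (E.c₄ ^ 3 / E.Δ) = (Nv v) ^ (-(r : ℤ)))
    (hs : fv v (E.c₄ ^ 3 / E.Δ - 1728) = (Nv v) ^ (-(s : ℤ))) :
    ∃ a b d : ℤ, (discExp v E : ℤ) ≤ d ∧ 3 * a = d + r ∧ 2 * b = d + s ∧ 0 ≤ a ∧ 0 ≤ b ∧
      (a < 4 ∨ b < 6) := by
  have hN : 1 < Nv v := Nv_one_lt v
  have hN0 : 0 < Nv v := lt_trans one_pos hN
  have hl := log_Nv_pos v
  obtain ⟨a, b, d, ha, hb, hd, h1, h2'⟩ := rel v E hE h4 h6 hr hs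
  obtain ⟨e48, e864, -⟩ := fv48 v h2 h3
  obtain ⟨k, k1, k2, k3⟩ := exists_k v (x := E.c₄ / 48) (y := E.c₆ / 864)
    (Or.inl (div_ne_zero h4 (by norm_num)))
  have hk := disc_k v E hE k k1 k2
  rw [map_div₀, e48, div_one, ha, zpow_le_zpow_iff_right₀ hN] at k1
  rw [map_div₀, e864, div_one, hb, zpow_le_zpow_iff_right₀ hN] at k2
  rw [map_div₀, map_div₀, e48, e864, div_one, div_one, ha, hb, zpow_lt_zpow_iff_right₀ hN,
    zpow_lt_zpow_iff_right₀ hN] at k3
  refine ⟨a + 4 * k, b + 6 * k, d + 12 * k, ?_, by linarith, by linarith, by linarith, by linarith,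
    ?_⟩
  · rw [hd, Real.log_zpow] at hk
    push_cast at hk
    have h5 : (discExp v E : ℝ) * Real.log (Nv v) ≤ ((d + 12 * k : ℤ) : ℝ) * Real.log (Nv v) := by
      push_cast
      linarith
    have h7 := le_of_mul_le_mul_right h5 hl
    exact_mod_cast h7
  · rcases k3 with k3 | k3
    · left; linarith
    · right; linarith

/-- the exponents of a curve with good reduction -/
theorem good_div (v : Pr K) (E : WeierstrassCurve K) (hE : E.Δ ≠ 0) (h4 : E.c₄ ≠ 0)
    (h6 : E.c₆ ≠ 0) {r s : ℕ} (hr : fv v (E.c₄ ^ 3 / E.Δ) = (Nv v) ^ (-(r : ℤ)))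
    (hs : fv v (E.c₄ ^ 3 / E.Δ - 1728) = (Nv v) ^ (-(s : ℤ))) (h : GoodAt v E) :
    (3 : ℤ) ∣ r ∧ (2 : ℤ) ∣ s := by
  have hN : 1 < Nv v := Nv_one_lt v
  have hN0 : 0 < Nv v := lt_trans one_pos hN
  obtain ⟨C, -, -, -, -, -, hΔ⟩ := h
  have hE' := disc_ne E hE C
  have hu : ((C.u⁻¹ : Kˣ) : K) ≠ 0 := Units.ne_zero _
  have h4' : (C • E).c₄ ≠ 0 := by
    rw [WeierstrassCurve.variableChange_c₄]
    exact mul_ne_zero (pow_ne_zero _ hu) h4
  have h6' : (C • E).c₆ ≠ 0 := by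
    rw [WeierstrassCurve.variableChange_c₆]
    exact mul_ne_zero (pow_ne_zero _ hu) h6
  rw [j_change E hE C] at hr hs
  obtain ⟨a, b, d, -, -, hd, h1, h2⟩ := rel v (C • E) hE' h4' h6' hr hs
  have h5 : fv v (C • E).Δ = 1 := (fv_one_iff v).2 hΔ
  rw [hd] at h5
  have h7 : (Nv v) ^ (-d) = (Nv v) ^ (0 : ℤ) := by rw [h5, zpow_zero]
  have := (zpow_right_injective₀ hN0 hN.ne') h7
  constructor
  · exact ⟨a, by linarith⟩
  · exact ⟨b, by linarith⟩

/-- semistable reduction and an integral invariant: good reduction -/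
theorem good_of_semi (v : Pr K) (E : WeierstrassCurve K) (hE : E.Δ ≠ 0)
    (hj : fv v (E.c₄ ^ 3 / E.Δ) ≤ 1) (h : SemiAt v E) : GoodAt v E := by
  obtain ⟨C, h1, h2, h3, h4, h6, h7⟩ := h
  refine ⟨C, h1, h2, h3, h4, h6, ?_⟩
  rcases h7 with h7 | h7
  · exact h7
  · have hΔ := (int_disc v _ ⟨h1, h2, h3, h4, h6⟩).1
    have h8 := disc_ne E hE C
    rw [j_change E hE C, map_div₀, map_pow, (fv_one_iff v).2 h7, one_pow,
      div_le_one ((fv v).pos h8)] at hj
    exact (fv_one_iff v).1 (le_antisymm ((fv_le_one_iff v).2 hΔ) hj)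

/-- the loss of an exponent -/
noncomputable def ls (r : ℕ) : ℝ := if r = 0 then 0 else (r : ℝ) - 1

theorem ls_zero : ls 0 = 0 := if_pos rfl

theorem ls_pos {r : ℕ} (h : r ≠ 0) : ls r = (r : ℝ) - 1 := if_neg h

/-- **the local inequality** -/
theorem loc_ineq (v : Pr K) (E : WeierstrassCurve K) (hE : E.Δ ≠ 0) (h4 : E.c₄ ≠ 0)
    (h6 : E.c₆ ≠ 0) {r s : ℕ} (hr : fv v (E.c₄ ^ 3 / E.Δ) = (Nv v) ^ (-(r : ℤ)))
    (hs : fv v (E.c₄ ^ 3 / E.Δ - 1728) = (Nv v) ^ (-(s : ℤ))) {η : ℝ} (h0 : 0 ≤ η) (h1 : η ≤ 3) :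
    (discExp v E : ℝ) * Real.log (Nv v) + ((1 + η) * r + η * s) * Real.log (Nv v) ≤
      (9 + η) * aw v E + ((3 + η) * ls r + 2 * η * ls s) * Real.log (Nv v) +
        30 * (-Real.log (fv v (6 : K))) := by
  have hN : 1 < Nv v := Nv_one_lt v
  have hl := log_Nv_pos v
  obtain ⟨s0, s1⟩ := log_six v
  have ha := aw_nonneg v E
  have hr0 : (0 : ℝ) ≤ r := Nat.cast_nonneg r
  have hs0 : (0 : ℝ) ≤ s := Nat.cast_nonneg s
  have hj1 : fv v (E.c₄ ^ 3 / E.Δ) ≤ 1 := by
    rw [hr]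
    exact zpow_le_one_of_nonpos₀ hN.le (by omega)
  by_cases hsix : fv v (6 : K) = 1
  · obtain ⟨e2, e3⟩ := two_three v hsix
    have l6 : Real.log (fv v (6 : K)) = 0 := by rw [hsix, Real.log_one]
    rw [l6]
    by_cases hg : GoodAt v E
    · obtain ⟨⟨m, hm⟩, ⟨k, hk⟩⟩ := good_div v E hE h4 h6 hr hs hg
      rw [disc_good v E hg]
      have key : (1 + η) * r + η * s ≤ (3 + η) * ls r + 2 * η * ls s := by
        have k1 : (1 + η) * r ≤ (3 + η) * ls r := by
          rcases Nat.eq_zero_or_pos r with h | h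
          · rw [h, ls_zero]; simp
          · rw [ls_pos h.ne']
            have : (3 : ℝ) ≤ r := by exact_mod_cast (by omega : 3 ≤ r)
            nlinarith
        have k2 : η * s ≤ 2 * η * ls s := by
          rcases Nat.eq_zero_or_pos s with h | h
          · rw [h, ls_zero]; simp
          · rw [ls_pos h.ne']
            have : (2 : ℝ) ≤ s := by exact_mod_cast (by omega : 2 ≤ s)
            nlinarith
        linarith
      have := mul_le_mul_of_nonneg_right key hl.le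
      have h9 : 0 ≤ (9 + η) * aw v E := mul_nonneg (by linarith) ha
      push_cast
      linarith
    · have hns : ¬ SemiAt v E := fun h => hg (good_of_semi v E hE hj1 h)
      have h7 : aw v E = Real.log (Nv v) := by
        unfold aw
        exact if_pos ⟨hns, (fv_one_iff v).1 hsix⟩
      rw [h7]
      obtain ⟨a, b, d, hd, r1, r2, a0, b0, hab⟩ := disc_int v E hE h4 h6 e2 e3 hr hs
      have key : (d : ℝ) + ((1 + η) * r + η * s) ≤
          (9 + η) + ((3 + η) * ls r + 2 * η * ls s) := by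
        rcases one_zero v e2 e3 hr hs with h | h
        · subst h
          rw [ls_zero]
          rcases Nat.eq_zero_or_pos s with h | h
          · subst h
            rw [ls_zero]
            have : (d : ℝ) ≤ 6 := by exact_mod_cast (by omega : d ≤ 6)
            push_cast
            linarith
          · rw [ls_pos h.ne']
            have k1 : (d : ℝ) ≤ 9 := by exact_mod_cast (by omega : d ≤ 9)
            have k2 : (1 : ℝ) ≤ s := by exact_mod_cast h
            push_cast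
            nlinarith
        · subst h
          rw [ls_zero]
          rcases Nat.eq_zero_or_pos r with h | h
          · subst h
            rw [ls_zero]
            have : (d : ℝ) ≤ 6 := by exact_mod_cast (by omega : d ≤ 6)
            push_cast
            linarith
          · rw [ls_pos h.ne']
            have k1 : (d : ℝ) ≤ 6 + 2 * r := by exact_mod_cast (by omega : d ≤ 6 + 2 * r)
            push_cast
            nlinarith
      have h8 : (discExp v E : ℝ) ≤ d := by exact_mod_cast hd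
      have h9 : (discExp v E : ℝ) + ((1 + η) * r + η * s) ≤
          (9 + η) + ((3 + η) * ls r + 2 * η * ls s) := by linarith
      have := mul_le_mul_of_nonneg_right h9 hl.le
      linarith
  · have h7 := s1 hsix
    have h8 := (disc_bound v E hE).1
    rw [max_eq_right hj1, Real.log_one] at h8
    have key : (1 + η) * r + η * s ≤ (3 + η) * ls r + 2 * η * ls s + 7 := by
      have k1 : (1 + η) * r ≤ (3 + η) * ls r + 4 := by
        rcases Nat.eq_zero_or_pos r with h | h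
        · rw [h, ls_zero]; simp
        · rw [ls_pos h.ne']
          have : (1 : ℝ) ≤ r := by exact_mod_cast h
          nlinarith
      have k2 : η * s ≤ 2 * η * ls s + 3 := by
        rcases Nat.eq_zero_or_pos s with h | h
        · rw [h, ls_zero]; simp
        · rw [ls_pos h.ne']
          have : (1 : ℝ) ≤ s := by exact_mod_cast h
          nlinarith
      linarith
    have := mul_le_mul_of_nonneg_right key hl.le
    have h9 : 0 ≤ (9 + η) * aw v E := mul_nonneg (by linarith) ha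
    linarith

end Pool.Agent.H85.F
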