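import Mathlib
import Pool.Agent.H85.F.Loc

/-!
# Counting integral elements with a small radical, uniformly in all number fields
-/

set_option autoImplicit false
set_option linter.unusedSectionVars false

namespace Pool.Agent.H85.F

open NumberField IsDedekindDomain Finset Pool.Agent.H691R3 Pool.Agent.W223.AK Pool.Agent.Y733.UD

section OneField

variable {K : Type} [Field K] [NumberField K]

/-- the height of an integral element -/
theorem ht_int {b : K} (h1 : ∀ v : Pr K, fv v b ≤ 1) :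
    ht b = ∑ w : InfinitePlace K, (w.mult : ℝ) * Real.log (max (w b) 1) := by
  have h := ht_eq ∅ b ∅ (fun v _ _ => h1 v) (Finset.disjoint_empty_left _)
  rw [sum_Spl, Finset.sum_empty, Finset.sum_empty, add_zero, add_zero] at h
  simp only [mt_inl, av_inl] at h
  exact h

theorem ht_one : ht (1 : K) = 0 := by
  rw [ht_int (fun v => by rw [map_one])]
  simp

/-- the ideal of an integral element -/
theorem exists_P {b : K} (hb : b ≠ 0) (h1 : ∀ v : Pr K, fv v b ≤ 1) : ∃ P : Idl K,
    (∀ v, fv v b = (Nv v) ^ (-(P v : ℤ))) ∧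
      len P = ∑ w : InfinitePlace K, (w.mult : ℝ) * Real.log (w b) := by
  obtain ⟨P, h2, h3⟩ := exists_ideal (K := K) (t := 1) one_ne_zero hb h1
    (fun v => by rw [one_mul]; exact h1 v)
  refine ⟨P, fun v => ?_, ?_⟩
  · have := h2 v
    rwa [map_one, max_self, mul_one] at this
  · rw [ht_one, add_zero] at h3
    rw [h3]
    refine Finset.sum_congr rfl fun w _ => ?_
    rw [map_one, max_self, Real.log_one, add_zero]

/-- the ideal determines its length -/
theorem len_of {b : K} (hb : b ≠ 0) (h1 : ∀ v : Pr K, fv v b ≤ 1) {P : Idl K}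
    (hP : ∀ v, fv v b = (Nv v) ^ (-(P v : ℤ))) :
    len P = ∑ w : InfinitePlace K, (w.mult : ℝ) * Real.log (w b) := by
  obtain ⟨Q, h2, h3⟩ := exists_P hb h1
  have : P = Q := by
    ext v
    have h4 := (hP v).symm.trans (h2 v)
    have h5 : (-(P v : ℤ)) = -(Q v : ℤ) :=
      (zpow_right_injective₀ (Nv_pos v) (Nv_one_lt v).ne') h4
    omega
  rw [this, h3]

theorem sum_abs_log {b : K} (hb : b ≠ 0) (h1 : ∀ v : Pr K, fv v b ≤ 1) :
    ∑ w : InfinitePlace K, (w.mult : ℝ) * |Real.log (w b)| ≤ 2 * ht b := by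
  obtain ⟨P, h2, h3⟩ := exists_P hb h1
  have h4 := len_nonneg P
  have h5 : ∀ w : InfinitePlace K, (w.mult : ℝ) * |Real.log (w b)| =
      2 * ((w.mult : ℝ) * Real.log (max (w b) 1)) - (w.mult : ℝ) * Real.log (w b) := by
    intro w
    have hw : 0 < w b := InfinitePlace.pos_iff.2 hb
    rcases le_total (w b) 1 with h | h
    · rw [max_eq_right h, Real.log_one, abs_of_nonpos (Real.log_nonpos hw.le h)]
      ring
    · rw [max_eq_left h, abs_of_nonneg (Real.log_nonneg h)]
      ring
  rw [Finset.sum_congr rfl fun w _ => h5 w, Finset.sum_sub_distrib, ← Finset.mul_sum, ← h3,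
    ← ht_int h1]
  linarith

theorem len_le_ht {b : K} (hb : b ≠ 0) (h1 : ∀ v : Pr K, fv v b ≤ 1) {P : Idl K}
    (hP : ∀ v, fv v b = (Nv v) ^ (-(P v : ℤ))) : len P ≤ ht b := by
  rw [len_of hb h1 hP, ht_int h1]
  refine Finset.sum_le_sum fun w _ => mul_le_mul_of_nonneg_left ?_ (Nat.cast_nonneg _)
  exact Real.log_le_log (InfinitePlace.pos_iff.2 hb) (le_max_left _ _)

end OneField

/-- **integral elements with a small radical** -/
theorem rad_count {ε : ℝ} (hε : 0 < ε) : ∃ A : ℝ, 0 ≤ A ∧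
    ∀ (K : Type) [Field K] [NumberField K], ∀ (X R : ℝ) (S : Finset K) (P : K → Idl K),
      (∀ b ∈ S, b ≠ 0 ∧ (∀ v, fv v b = (Nv v) ^ (-(P b v : ℤ))) ∧ ht b ≤ X ∧ rl (P b) ≤ R) →
      (S.card : ℝ) ≤ Real.exp (Module.finrank ℚ K * A + R + ε * X) := by
  classical
  obtain ⟨F0, hF0, hw⟩ := weight_sum (half_pos hε)
  obtain ⟨A2, hA2, hu⟩ := units_card (ε := ε / 8) (by positivity)
  refine ⟨F0 + A2, by positivity, ?_⟩
  intro K _ _ X R S P hS
  set n := Module.finrank ℚ K with hn
  have hle : ∀ b ∈ S, ∀ v, fv v b ≤ 1 := by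
    intro b hb v
    rw [(hS b hb).2.1 v]
    exact zpow_le_one_of_nonpos₀ (Nv_one_lt v).le (by omega)
  have himg : ((S.image P).card : ℝ) ≤ Real.exp (n * F0 + R + ε / 2 * X) := by
    have h1 : ((S.image P).card : ℝ) = ∑ t ∈ S.image P, (1 : ℝ) := by simp
    have h2 : ∑ t ∈ S.image P, (1 : ℝ) ≤
        ∑ t ∈ S.image P, Real.exp (R + ε / 2 * X) * Real.exp (-(rl t) - ε / 2 * len t) := by
      refine Finset.sum_le_sum fun t ht' => ?_
      obtain ⟨b, hb, rfl⟩ := Finset.mem_image.1 ht'
      obtain ⟨b0, bP, bX, bR⟩ := hS b hb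
      rw [← Real.exp_add]
      apply Real.one_le_exp
      have h3 := len_le_ht b0 (hle b hb) bP
      have h4 := mul_le_mul_of_nonneg_left (h3.trans bX) (half_pos hε).le
      linarith
    rw [h1]
    refine h2.trans ?_
    rw [← Finset.mul_sum]
    refine (mul_le_mul_of_nonneg_left (hw K _) (Real.exp_pos _).le).trans (le_of_eq ?_)
    rw [← Real.exp_add]
    congr 1
    ring
  have hfib : ∀ a ∈ S.image P, ((S.filter fun b => P b = a).card : ℝ) ≤
      Real.exp (n * A2 + ε / 8 * (4 * X)) := by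
    intro a _
    set G := S.filter fun b => P b = a with hG
    rcases G.eq_empty_or_nonempty with hGe | ⟨b0, hb0⟩
    · rw [hGe, Finset.card_empty, Nat.cast_zero]
      positivity
    have hGm : ∀ b ∈ G, b ∈ S ∧ P b = a := fun b hb => Finset.mem_filter.1 hb
    obtain ⟨hb0S, hb0a⟩ := hGm b0 hb0
    have hb00 := (hS b0 hb0S).1
    have hinj : Set.InjOn (fun b : K => b / b0) (G : Set K) := fun x _ y _ hxy =>
      (div_left_inj' hb00).1 hxy
    rw [← Finset.card_image_of_injOn hinj]
    refine hu K _ _ ?_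
    intro y hy
    obtain ⟨b, hb, rfl⟩ := Finset.mem_image.1 hy
    obtain ⟨hbS, hba⟩ := hGm b hb
    have hbne := (hS b hbS).1
    refine ⟨div_ne_zero hbne hb00, ?_, ?_⟩
    · intro v
      rw [map_div₀, (hS b hbS).2.1 v, (hS b0 hb0S).2.1 v, hba, hb0a]
      exact div_self (zpow_ne_zero _ (Nv_pos v).ne')
    · have e1 := sum_abs_log hbne (hle b hbS)
      have e2 := sum_abs_log hb00 (hle b0 hb0S)
      have e3 := (hS b hbS).2.2.1
      have e4 := (hS b0 hb0S).2.2.1
      calc ∑ w : InfinitePlace K, (w.mult : ℝ) * |Real.log (w (b / b0))|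
          ≤ ∑ w : InfinitePlace K, ((w.mult : ℝ) * |Real.log (w b)| +
              (w.mult : ℝ) * |Real.log (w b0)|) := by
            refine Finset.sum_le_sum fun w _ => ?_
            have hw1 : 0 < w b := InfinitePlace.pos_iff.2 hbne
            have hw2 : 0 < w b0 := InfinitePlace.pos_iff.2 hb00
            rw [map_div₀, Real.log_div hw1.ne' hw2.ne', ← mul_add]
            exact mul_le_mul_of_nonneg_left (abs_sub _ _) (Nat.cast_nonneg _)
        _ ≤ 4 * X := by
            rw [Finset.sum_add_distrib]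
            linarith
  have hcard : (S.card : ℝ) = ∑ a ∈ S.image P, ((S.filter fun b => P b = a).card : ℝ) := by
    rw [Finset.card_eq_sum_card_image P S]
    push_cast
    rfl
  rw [hcard]
  calc ∑ a ∈ S.image P, ((S.filter fun b => P b = a).card : ℝ)
      ≤ ∑ _a ∈ S.image P, Real.exp (n * A2 + ε / 8 * (4 * X)) := Finset.sum_le_sum hfib
    _ = ((S.image P).card : ℝ) * Real.exp (n * A2 + ε / 8 * (4 * X)) := by
        rw [Finset.sum_const, nsmul_eq_mul]
    _ ≤ Real.exp (n * F0 + R + ε / 2 * X) * Real.exp (n * A2 + ε / 8 * (4 * X)) :=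
        mul_le_mul_of_nonneg_right himg (Real.exp_pos _).le
    _ = _ := by
        rw [← Real.exp_add]
        congr 1
        ring

end Pool.Agent.H85.F
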