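import Mathlib
import Pool.Agent.H85.F.Cnt

/-!
# The Faltings height of a curve with integral invariant, and the exceptional invariants
-/

set_option autoImplicit false
set_option linter.unusedSectionVars false

namespace Pool.Agent.H85.F

open NumberField IsDedekindDomain Pool.Agent.H691R3 Pool.Agent.W223.AK Pool.Agent.Y733.LS
open Pool.Agent.Y733.FF Pool.Agent.Y733.UD
open Pool.Agent.TH876.FH (GoodAt IsPeriod arch jInv Hj_height Hj_norm)

section One

variable {K : Type} [Field K] [NumberField K]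

theorem supp_idl (P : Idl K) (f : ℕ → ℝ) (h0 : f 0 = 0) :
    (Function.support fun v : Pr K => f (P v) * Real.log (Nv v)) ⊆ (P.support : Set (Pr K)) := by
  intro v hv
  rw [Function.mem_support] at hv
  rw [Finset.mem_coe, Finsupp.mem_support_iff]
  intro h
  apply hv
  rw [h, h0, zero_mul]

theorem supp_idl_fin (P : Idl K) (f : ℕ → ℝ) (h0 : f 0 = 0) :
    (Function.support fun v : Pr K => f (P v) * Real.log (Nv v)).Finite :=
  P.support.finite_toSet.subset (supp_idl P f h0)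

theorem finsum_len (P : Idl K) : ∑ᶠ v : Pr K, (P v : ℝ) * Real.log (Nv v) = len P := by
  unfold len
  exact finsum_eq_sum_of_support_subset _ (supp_idl P (fun m => (m : ℝ)) (by simp))

theorem finsum_ls (P : Idl K) : ∑ᶠ v : Pr K, ls (P v) * Real.log (Nv v) = len P - rl P := by
  unfold len rl
  rw [finsum_eq_sum_of_support_subset _ (supp_idl P ls ls_zero), ← Finset.sum_sub_distrib]
  refine Finset.sum_congr rfl fun v hv => ?_
  rw [ls_pos (Finsupp.mem_support_iff.1 hv)]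
  ring

/-- **the global inequality** -/
theorem glob (E : WeierstrassCurve K) (hE : E.Δ ≠ 0) (h4 : E.c₄ ≠ 0) (h6 : E.c₆ ≠ 0)
    {P Q : Idl K} (hP : ∀ v, fv v (E.c₄ ^ 3 / E.Δ) = (Nv v) ^ (-(P v : ℤ)))
    (hQ : ∀ v, fv v (E.c₄ ^ 3 / E.Δ - 1728) = (Nv v) ^ (-(Q v : ℤ)))
    {η : ℝ} (h0 : 0 ≤ η) (h1 : η ≤ 3) :
    discSum E + ((1 + η) * len P + η * len Q) ≤ (9 + η) / 2 * Real.log (addN E) +
      ((3 + η) * (len P - rl P) + 2 * η * (len Q - rl Q)) +
        30 * (Module.finrank ℚ K * Real.log 6) := by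
  have s1 := supp_disc E hE
  have s2 := supp_idl_fin P (fun m => (m : ℝ)) (by simp)
  have s3 := supp_idl_fin Q (fun m => (m : ℝ)) (by simp)
  have s4 := supp_idl_fin P ls ls_zero
  have s5 := supp_idl_fin Q ls ls_zero
  have s6 := supp_aw E hE
  have s7 : (Function.support fun v : Pr K => Real.log (fv v (6 : K))).Finite :=
    Fs_log (K := K) (z := (6 : K)) (by norm_num)
  have s2' := supp_mul (1 + η) s2
  have s3' := supp_mul η s3
  have s4' := supp_mul (3 + η) s4
  have s5' := supp_mul (2 * η) s5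
  have s6' := supp_mul (9 + η) s6
  have s7' := supp_mul (-30) s7
  have l1 := supp_add s2' s3'
  have l2 := supp_add s1 l1
  have r1 := supp_add s4' s5'
  have r2 := supp_add s6' r1
  have r3 := supp_add r2 s7'
  have key : ∑ᶠ v : Pr K, ((discExp v E : ℝ) * Real.log (Nv v) +
      ((1 + η) * ((P v : ℝ) * Real.log (Nv v)) + η * ((Q v : ℝ) * Real.log (Nv v)))) ≤
      ∑ᶠ v : Pr K, ((9 + η) * aw v E + ((3 + η) * (ls (P v) * Real.log (Nv v)) +
        2 * η * (ls (Q v) * Real.log (Nv v))) + -30 * Real.log (fv v (6 : K))) := by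
    refine finsum_le_finsum' l2 r3 fun v => ?_
    have h := loc_ineq v E hE h4 h6 (hP v) (hQ v) h0 h1
    linarith
  rw [sum_add s1 l1, sum_add s2' s3', sum_mul _ s2, sum_mul _ s3, sum_add r2 s7',
    sum_add s6' r1, sum_add s4' s5', sum_mul _ s4, sum_mul _ s5, sum_mul _ s6, sum_mul _ s7,
    finsum_len, finsum_len, finsum_ls, finsum_ls] at key
  have h6' := fin_nat (K := K) (n := 6) (by norm_num)
  push_cast at h6'
  rw [h6'] at key
  rw [log_addN E hE]
  have e1 : discSum E = ∑ᶠ v : Pr K, (discExp v E : ℝ) * Real.log (Nv v) := rfl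
  rw [e1]
  linarith

/-- the height of `j - 1728` -/
theorem ht_sub {j : K} (h1 : ∀ v : Pr K, fv v j ≤ 1) :
    (∀ v : Pr K, fv v (j - 1728) ≤ 1) ∧
      ht (j - 1728) ≤ ht j + Module.finrank ℚ K * Real.log 1729 := by
  have h2 : ∀ v : Pr K, fv v (j - 1728) ≤ 1 := fun v =>
    (fv_Na v).le_sub (h1 v) ((fv_Na v).ofNat 1728)
  refine ⟨h2, ?_⟩
  rw [ht_int h1, ht_int h2, ← sum_mult, Finset.sum_mul, ← Finset.sum_add_distrib]
  refine Finset.sum_le_sum fun w _ => ?_
  rw [← mul_add]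
  refine mul_le_mul_of_nonneg_left ?_ (Nat.cast_nonneg _)
  have hm : (1 : ℝ) ≤ max (w j) 1 := le_max_right _ _
  rw [← Real.log_mul (by linarith) (by norm_num)]
  refine Real.log_le_log (lt_max_of_lt_right one_pos) ?_
  have e : w (1728 : K) = 1728 := by
    have := inf_nat (K := K) w 1728
    exact_mod_cast this
  have h3 : w (j - 1728) ≤ w j + 1728 := by
    have h4 : w (j + -1728) ≤ w j + w (-1728 : K) := w.1.add_le _ _
    have h5 : w (-1728 : K) = w (1728 : K) := w.1.map_neg _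
    rw [h5, e] at h4
    rwa [sub_eq_add_neg]
  refine max_le ?_ ?_
  · have := le_max_left (w j) 1
    linarith
  · linarith

end One

/-- the exceptional set: the radicals of `j` and `j - 1728` are small -/
def Bad (η : ℝ) {K : Type} [Field K] [NumberField K] (j : K) : Prop :=
  ∃ P Q : Idl K, (∀ v, fv v j = (Nv v) ^ (-(P v : ℤ))) ∧
    (∀ v, fv v (j - 1728) = (Nv v) ^ (-(Q v : ℤ))) ∧
    (3 + η) * rl P + 2 * η * rl Q < (3 + η) * ht j

/-- **Frey's inequality** for all integral invariants which are not bad -/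
theorem frey_int : ∃ C : ℝ, 0 < C ∧ ∀ (K : Type) [Field K] [NumberField K]
    (E : WeierstrassCurve K) (τ : InfinitePlace K → UpperHalfPlane) (η : ℝ), E.Δ ≠ 0 →
    IsPeriod (E.c₄ ^ 3 / E.Δ) τ → 0 ≤ η → η ≤ 3 → E.c₄ ^ 3 / E.Δ ≠ 0 →
    E.c₄ ^ 3 / E.Δ - 1728 ≠ 0 → (∀ v : Pr K, fv v (E.c₄ ^ 3 / E.Δ) ≤ 1) →
    ¬ Bad η (E.c₄ ^ 3 / E.Δ) →
    discSum E + ∑ w : InfinitePlace K, (w.mult : ℝ) * arch (τ w) ≤
      (9 + η) / 2 * Real.log (addN E) + C * Module.finrank ℚ K := by
  obtain ⟨c, hc0, hc⟩ := arch_le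
  have l6 : 0 < Real.log 6 := Real.log_pos (by norm_num)
  have l7 : 0 < Real.log 1729 := Real.log_pos (by norm_num)
  refine ⟨c + 30 * Real.log 6 + 3 * Real.log 1729, by positivity, ?_⟩
  intro K _ _ E τ η hE hτ h0 h3 hj hj' hint hbad
  obtain ⟨hint', hht⟩ := ht_sub hint
  obtain ⟨P, hP, -⟩ := exists_P hj hint
  obtain ⟨Q, hQ, -⟩ := exists_P hj' hint'
  have h1 := glob E hE (c4_ne hj) (c6_ne hE hj') hP hQ h0 h3
  have h2 := hc K _ τ hτ
  rw [← ht_int hint] at h2
  have h5 : (3 + η) * ht (E.c₄ ^ 3 / E.Δ) ≤ (3 + η) * rl P + 2 * η * rl Q := by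
    by_contra hcon
    exact hbad ⟨P, Q, hP, hQ, not_le.1 hcon⟩
  have h6 := len_le_ht hj hint hP
  have h7 := (len_le_ht hj' hint' hQ).trans hht
  have h8 : η * len Q ≤ η * (ht (E.c₄ ^ 3 / E.Δ) + Module.finrank ℚ K * Real.log 1729) :=
    mul_le_mul_of_nonneg_left h7 h0
  have hn : (0 : ℝ) ≤ Module.finrank ℚ K * Real.log 1729 := by positivity
  have h9 : η * (Module.finrank ℚ K * Real.log 1729) ≤
      3 * (Module.finrank ℚ K * Real.log 1729) := mul_le_mul_of_nonneg_right h3 hn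
  linarith

/-- **the number of the bad integral elements** -/
theorem bad_count {η ε : ℝ} (h0 : 0 ≤ η) (hε : 0 < ε) : ∃ A : ℝ, 0 ≤ A ∧
    ∀ (K : Type) [Field K] [NumberField K] (X : ℝ) (S : Finset K), 0 ≤ X →
      (∀ j ∈ S, (∀ v : Pr K, fv v j ≤ 1) ∧ j ≠ 0 ∧ j - 1728 ≠ 0 ∧ ht j ≤ X ∧ Bad η j) →
        (S.card : ℝ) ≤ Real.exp (Module.finrank ℚ K * A +
          ((3 + η) / (3 + 3 * η) + ε) * X) := by
  classical
  obtain ⟨A, hA, hcnt⟩ := rad_count hε
  have l7 : 0 < Real.log 1729 := Real.log_pos (by norm_num)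
  have l2 : 0 < Real.log 2 := Real.log_pos (by norm_num)
  refine ⟨A + ε * Real.log 1729 + Real.log 2, by positivity, ?_⟩
  intro K _ _ X S hX hS
  set n := Module.finrank ℚ K with hn
  have hn1 : (1 : ℝ) ≤ n := by exact_mod_cast Module.finrank_pos (R := ℚ) (M := K)
  have hd : 0 < 3 + 3 * η := by linarith
  set T : ℝ := (3 + η) / (3 + 3 * η) with hT
  have hTd : T * (3 + 3 * η) = 3 + η := div_mul_cancel₀ _ hd.ne'
  have hT0 : 0 ≤ T := div_nonneg (by linarith) hd.le
  have hex : ∀ j : K, ∃ PQ : Idl K × Idl K, j ∈ S →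
      (∀ v, fv v j = (Nv v) ^ (-(PQ.1 v : ℤ))) ∧
      (∀ v, fv v (j - 1728) = (Nv v) ^ (-(PQ.2 v : ℤ))) ∧
      (3 + η) * rl PQ.1 + 2 * η * rl PQ.2 < (3 + η) * ht j := by
    intro j
    by_cases hj : j ∈ S
    · obtain ⟨P, Q, h⟩ := (hS j hj).2.2.2.2
      exact ⟨(P, Q), fun _ => h⟩
    · exact ⟨0, fun h => absurd h hj⟩
  choose F hF using hex
  set S1 := S.filter fun j => rl (F j).1 ≤ T * X with hS1
  set S2 := S.filter fun j => ¬ rl (F j).1 ≤ T * X with hS2
  have hb1 : (S1.card : ℝ) ≤ Real.exp (n * A + T * X + ε * X) := by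
    refine hcnt K X (T * X) S1 (fun j => (F j).1) fun j hj => ?_
    obtain ⟨h1, h2⟩ := Finset.mem_filter.1 hj
    obtain ⟨g1, g2, g3, g4, g5⟩ := hS j h1
    exact ⟨g2, (hF j h1).1, g4, h2⟩
  have hb2 : (S2.card : ℝ) ≤ Real.exp (n * A + T * X + ε * (X + n * Real.log 1729)) := by
    have hinj : Set.InjOn (fun j : K => j - 1728) (S2 : Set K) := fun x _ y _ hxy =>
      sub_left_injective hxy
    rw [← Finset.card_image_of_injOn hinj]
    refine hcnt K _ (T * X) _ (fun b => (F (b + 1728)).2) fun b hb => ?_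
    obtain ⟨j, hj, rfl⟩ := Finset.mem_image.1 hb
    obtain ⟨h1, h2⟩ := Finset.mem_filter.1 hj
    obtain ⟨g1, g2, g3, g4, g5⟩ := hS j h1
    rw [sub_add_cancel]
    obtain ⟨f1, f2, f3⟩ := hF j h1
    refine ⟨g3, f2, (ht_sub g1).2.trans (by linarith), ?_⟩
    rw [not_le] at h2
    by_contra hcon
    rw [not_le] at hcon
    have k1 : (3 + η) * (T * X) ≤ (3 + η) * rl (F j).1 :=
      mul_le_mul_of_nonneg_left h2.le (by linarith)
    have k2 : 2 * η * (T * X) ≤ 2 * η * rl (F j).2 :=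
      mul_le_mul_of_nonneg_left hcon.le (by linarith)
    have k3 : (3 + η) * ht j ≤ (3 + η) * X := mul_le_mul_of_nonneg_left g4 (by linarith)
    have k4 : (3 + η) * X = (3 + η) * (T * X) + 2 * η * (T * X) := by
      have k5 : (3 + η) * X = T * (3 + 3 * η) * X := by rw [hTd]
      rw [k5]
      ring
    linarith
  have hsplit : (S.card : ℝ) = S1.card + S2.card := by
    have := Finset.card_filter_add_card_filter_not (s := S) (fun j : K => rl (F j).1 ≤ T * X)
    rw [← this]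
    push_cast
    rfl
  have h2n : (2 : ℝ) ≤ Real.exp (n * Real.log 2) := by
    have h5 : Real.exp (Real.log 2) ≤ Real.exp (n * Real.log 2) := by
      apply Real.exp_le_exp.2
      nlinarith
    rwa [Real.exp_log (by norm_num)] at h5
  have hb1' : (S1.card : ℝ) ≤ Real.exp (n * A + T * X + ε * (X + n * Real.log 1729)) := by
    refine hb1.trans (Real.exp_le_exp.2 ?_)
    have : 0 ≤ ε * (n * Real.log 1729) := by positivity
    linarith
  calc (S.card : ℝ) ≤ 2 * Real.exp (n * A + T * X + ε * (X + n * Real.log 1729)) := by linarith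
    _ ≤ Real.exp (n * Real.log 2) * Real.exp (n * A + T * X + ε * (X + n * Real.log 1729)) :=
        mul_le_mul_of_nonneg_right h2n (Real.exp_pos _).le
    _ = _ := by
        rw [← Real.exp_add]
        congr 1
        ring

end Pool.Agent.H85.F
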