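import Mathlib
import Pool.Agent.H85.F.Glob

/-!
# The Faltings height of all curves with a given invariant
-/

set_option autoImplicit false
set_option linter.unusedSectionVars false

namespace Pool.Agent.H85.F

open NumberField IsDedekindDomain Pool.Agent.H691R3 Pool.Agent.W223.AK Pool.Agent.Y733.LS
open Pool.Agent.Y733.FF Pool.Agent.Y733.UD
open Pool.Agent.W222.UABC (cS_empty)
open Pool.Agent.TH876.FH (GoodAt IsPeriod arch jInv Hj_height Hj_norm)

/-- the indicator of the positive numbers -/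
noncomputable def ind (r : ℕ) : ℝ := if r = 0 then 0 else 1

theorem ind_zero : ind 0 = 0 := if_pos rfl

theorem ind_pos {r : ℕ} (h : r ≠ 0) : ind r = 1 := if_neg h

/-- the weight of the zeros of `j - 1728` -/
noncomputable def gw (η : ℝ) (s : ℕ) : ℝ := max η 0 * (s - 2 * ind s) + max (-η) 0 * ind s

theorem gw_zero (η : ℝ) : gw η 0 = 0 := by
  unfold gw
  rw [ind_zero]
  simp

theorem gw_nonneg {η : ℝ} (h : 0 ≤ η) (s : ℕ) : gw η s = η * (s - 2 * ind s) := by
  unfold gw
  rw [max_eq_left h, max_eq_right (by linarith)]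
  ring

theorem gw_neg {η : ℝ} (h : η ≤ 0) (s : ℕ) : gw η s = -η * ind s := by
  unfold gw
  rw [max_eq_right h, max_eq_left (by linarith)]
  ring

theorem gw_ge {η : ℝ} (h1 : η ≤ 3) (s : ℕ) : -3 ≤ gw η s := by
  rcases le_total 0 η with h | h
  · rw [gw_nonneg h]
    rcases Nat.eq_zero_or_pos s with h3 | h3
    · rw [h3, ind_zero]
      norm_num
    · rw [ind_pos h3.ne']
      have : (1 : ℝ) ≤ s := by exact_mod_cast h3
      nlinarith
  · rw [gw_neg h]
    rcases Nat.eq_zero_or_pos s with h3 | h3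
    · rw [h3, ind_zero]
      norm_num
    · rw [ind_pos h3.ne']
      linarith

section One

variable {K : Type} [Field K] [NumberField K]

/-- **the local inequality**, all invariants -/
theorem loc_gen (v : Pr K) (E : WeierstrassCurve K) (hE : E.Δ ≠ 0) (h4 : E.c₄ ≠ 0)
    (h6 : E.c₆ ≠ 0) {x : K} (hx : E.c₄ ^ 3 / E.Δ = -1728 * x) {P : Fin 3 → Idl K}
    (hP : IsP ∅ x P) {η : ℝ} (h0 : -1 ≤ η) (h1 : η ≤ 3) :
    (discExp v E : ℝ) * Real.log (Nv v) ≤ (9 + η) / 2 * mw v E + (9 + η) * aw v E +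
      ((P 1 v : ℝ) - (3 + η) * ind (P 1 v)) * Real.log (Nv v) +
      (2 * (P 0 v : ℝ) - (3 + η) * ind (P 0 v)) * Real.log (Nv v) +
      gw η (P 2 v) * Real.log (Nv v) + 35 * (-Real.log (fv v (6 : K))) := by
  have hN : 1 < Nv v := Nv_one_lt v
  have hN0 : 0 < Nv v := lt_trans one_pos hN
  have hl := log_Nv_pos v
  obtain ⟨s0, s1⟩ := log_six v
  have ha := aw_nonneg v E
  have hm := mw_nonneg v E
  have hm' : 0 ≤ (9 + η) / 2 * mw v E := mul_nonneg (by linarith) hm
  have ha' : 0 ≤ (9 + η) * aw v E := mul_nonneg (by linarith) ha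
  have v0 : fv v x = max (fv v x) 1 * (Nv v) ^ (-(P 0 v : ℤ)) :=
    hP.val 0 v (Finset.notMem_empty v)
  have v1 : fv v (1 : K) = max (fv v x) 1 * (Nv v) ^ (-(P 1 v : ℤ)) :=
    hP.val 1 v (Finset.notMem_empty v)
  have v2 : fv v (x + 1) = max (fv v x) 1 * (Nv v) ^ (-(P 2 v : ℤ)) :=
    hP.val 2 v (Finset.notMem_empty v)
  have hmax : max (fv v x) 1 = (Nv v) ^ (P 1 v : ℤ) := by
    rw [map_one, zpow_neg] at v1
    have hz : (Nv v) ^ (P 1 v : ℤ) ≠ 0 := zpow_ne_zero _ hN0.ne'
    field_simp at v1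
    exact v1.symm
  have hsub : E.c₄ ^ 3 / E.Δ - 1728 = -1728 * (x + 1) := by rw [hx]; ring
  by_cases hsix : fv v (6 : K) = 1
  · obtain ⟨e2, e3⟩ := two_three v hsix
    obtain ⟨-, -, e1728⟩ := fv48 v e2 e3
    have l6 : Real.log (fv v (6 : K)) = 0 := by rw [hsix, Real.log_one]
    have ej : fv v (E.c₄ ^ 3 / E.Δ) = fv v x := by
      rw [hx, map_mul, (fv v).map_neg, e1728, one_mul]
    have ej' : fv v (E.c₄ ^ 3 / E.Δ - 1728) = fv v (x + 1) := by
      rw [hsub, map_mul, (fv v).map_neg, e1728, one_mul]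
    rw [l6]
    rcases Nat.eq_zero_or_pos (P 1 v) with hp | hp
    · -- no pole
      rw [hp] at hmax
      rw [Nat.cast_zero, zpow_zero] at hmax
      rw [hmax, one_mul] at v0 v2
      have hr := ej.trans v0
      have hs := ej'.trans v2
      rw [hp, ind_zero]
      have hj1 : fv v (E.c₄ ^ 3 / E.Δ) ≤ 1 := by
        rw [hr]
        exact zpow_le_one_of_nonpos₀ hN.le (by omega)
      generalize P 0 v = r at hr ⊢
      generalize P 2 v = s at hs ⊢
      by_cases hg : GoodAt v E
      · obtain ⟨⟨m, hm⟩, ⟨k, hk⟩⟩ := good_div v E hE h4 h6 hr hs hg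
        rw [disc_good v E hg]
        have key : 0 ≤ (2 * (r : ℝ) - (3 + η) * ind r) + gw η s := by
          have k1 : 0 ≤ 2 * (r : ℝ) - (3 + η) * ind r := by
            rcases Nat.eq_zero_or_pos r with h | h
            · rw [h, ind_zero]; simp
            · rw [ind_pos h.ne']
              have : (3 : ℝ) ≤ r := by exact_mod_cast (by omega : 3 ≤ r)
              linarith
          have k2 : 0 ≤ gw η s := by
            rcases le_total 0 η with h | h
            · rw [gw_nonneg h]
              rcases Nat.eq_zero_or_pos s with h3 | h3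
              · rw [h3, ind_zero]; simp
              · rw [ind_pos h3.ne']
                have : (2 : ℝ) ≤ s := by exact_mod_cast (by omega : 2 ≤ s)
                exact mul_nonneg h (by linarith)
            · rw [gw_neg h]
              rcases Nat.eq_zero_or_pos s with h3 | h3
              · rw [h3, ind_zero]; simp
              · rw [ind_pos h3.ne']
                linarith
          linarith
        have := mul_nonneg key hl.le
        push_cast
        linarith
      · have hns : ¬ SemiAt v E := fun h => hg (good_of_semi v E hE hj1 h)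
        have h7 : aw v E = Real.log (Nv v) := by
          unfold aw
          exact if_pos ⟨hns, (fv_one_iff v).1 hsix⟩
        rw [h7]
        obtain ⟨a, b, d, hd, r1, r2, a0, b0, hab⟩ := disc_int v E hE h4 h6 e2 e3 hr hs
        have key : (d : ℝ) ≤ (9 + η) + (2 * (r : ℝ) - (3 + η) * ind r) + gw η s := by
          rcases one_zero v e2 e3 hr hs with h | h
          · subst h
            rw [ind_zero]
            rcases Nat.eq_zero_or_pos s with h | h
            · subst h
              rw [gw_zero]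
              have : (d : ℝ) ≤ 6 := by exact_mod_cast (by omega : d ≤ 6)
              push_cast
              linarith
            · have k1 : (d : ℝ) ≤ 9 := by exact_mod_cast (by omega : d ≤ 9)
              have k2 : (1 : ℝ) ≤ s := by exact_mod_cast h
              have k3 : -η ≤ gw η s := by
                rcases le_total 0 η with h3 | h3
                · rw [gw_nonneg h3, ind_pos h.ne']
                  nlinarith
                · rw [gw_neg h3, ind_pos h.ne', mul_one]
              push_cast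
              linarith
          · subst h
            rw [gw_zero]
            rcases Nat.eq_zero_or_pos r with h | h
            · subst h
              rw [ind_zero]
              have : (d : ℝ) ≤ 6 := by exact_mod_cast (by omega : d ≤ 6)
              push_cast
              linarith
            · rw [ind_pos h.ne']
              have k1 : (d : ℝ) ≤ 6 + 2 * r := by exact_mod_cast (by omega : d ≤ 6 + 2 * r)
              push_cast
              linarith
        have h8 : (discExp v E : ℝ) ≤ d := by exact_mod_cast hd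
        have h9 : (discExp v E : ℝ) ≤
            (9 + η) + (2 * (r : ℝ) - (3 + η) * ind r) + gw η s := by linarith
        have := mul_le_mul_of_nonneg_right h9 hl.le
        push_cast
        linarith
    · -- a pole
      have hmax1 : 1 < max (fv v x) 1 := by
        rw [hmax]
        exact one_lt_zpow₀ hN (by omega)
      have hx1 : 1 < fv v x := by
        rcases max_choice (fv v x) 1 with h | h
        · rwa [h] at hmax1
        · rw [h] at hmax1
          exact absurd hmax1 (lt_irrefl _)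
      have hxm : max (fv v x) 1 = fv v x := max_eq_left hx1.le
      have hx0 : fv v x ≠ 0 := (lt_trans one_pos hx1).ne'
      have hP0 : P 0 v = 0 := by
        rw [hxm] at v0
        have h5 : (Nv v) ^ (-(P 0 v : ℤ)) = (Nv v) ^ (0 : ℤ) := by
          rw [zpow_zero]
          have h6 : fv v x * (Nv v) ^ (-(P 0 v : ℤ)) = fv v x * 1 := by rw [← v0, mul_one]
          exact mul_left_cancel₀ hx0 h6
        have h7 : (-(P 0 v : ℤ)) = 0 := (zpow_right_injective₀ hN0 hN.ne') h5
        omega
      have hP2 : P 2 v = 0 := by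
        have h5 : fv v (x + 1) = fv v x := (fv_Na v).eq (by rw [map_one]; exact hx1)
        rw [hxm, h5] at v2
        have h5 : (Nv v) ^ (-(P 2 v : ℤ)) = (Nv v) ^ (0 : ℤ) := by
          rw [zpow_zero]
          have h6 : fv v x * (Nv v) ^ (-(P 2 v : ℤ)) = fv v x * 1 := by rw [← v2, mul_one]
          exact mul_left_cancel₀ hx0 h6
        have h7 : (-(P 2 v : ℤ)) = 0 := (zpow_right_injective₀ hN0 hN.ne') h5
        omega
      have hlogm : Real.log (max (fv v (E.c₄ ^ 3 / E.Δ)) 1) = (P 1 v : ℝ) * Real.log (Nv v) := by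
        rw [ej, hmax, Real.log_zpow]
        push_cast
        ring
      rw [hP0, hP2, ind_zero, gw_zero, ind_pos hp.ne']
      have hng : ¬ GoodAt v E := by
        intro hg
        have := good_int v E hE hg
        rw [ej] at this
        linarith
      by_cases hs : SemiAt v E
      · have h5 := semi_disc v E hE hs
        rw [hlogm] at h5
        have h7 : mw v E = Real.log (Nv v) := by
          unfold mw
          exact if_pos ⟨hng, hs, (fv_one_iff v).1 hsix⟩
        rw [h7]
        push_cast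
        nlinarith
      · have h5 := (disc_bound v E hE).2 e2 e3 (by rw [ej]; exact hx1)
        rw [hlogm] at h5
        have h7 : aw v E = Real.log (Nv v) := by
          unfold aw
          exact if_pos ⟨hs, (fv_one_iff v).1 hsix⟩
        rw [h7]
        push_cast
        linarith
  · have h7 := s1 hsix
    have h8 := (disc_bound v E hE).1
    have h9 : Real.log (max (fv v (E.c₄ ^ 3 / E.Δ)) 1) ≤ (P 1 v : ℝ) * Real.log (Nv v) := by
      have e1 : (P 1 v : ℝ) * Real.log (Nv v) = Real.log ((Nv v) ^ (P 1 v : ℤ)) := by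
        rw [Real.log_zpow]
        push_cast
        ring
      rw [e1, ← hmax]
      refine Real.log_le_log (lt_max_of_lt_right one_pos) (max_le_max ?_ le_rfl)
      rw [hx, map_mul, (fv v).map_neg]
      have := (fv_Na v).ofNat 1728
      exact mul_le_of_le_one_left ((fv v).nonneg _) this
    have k0 : -6 ≤ -((3 + η) * ind (P 1 v)) := by
      rcases Nat.eq_zero_or_pos (P 1 v) with h | h
      · rw [h, ind_zero]; norm_num
      · rw [ind_pos h.ne']; linarith
    have k1 : -4 ≤ 2 * (P 0 v : ℝ) - (3 + η) * ind (P 0 v) := by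
      rcases Nat.eq_zero_or_pos (P 0 v) with h | h
      · rw [h, ind_zero]; norm_num
      · rw [ind_pos h.ne']
        have : (1 : ℝ) ≤ (P 0 v : ℝ) := by exact_mod_cast h
        linarith
    have k2 := gw_ge h1 (P 2 v)
    have k3 := mul_le_mul_of_nonneg_right k0 hl.le
    have k4 := mul_le_mul_of_nonneg_right k1 hl.le
    have k5 := mul_le_mul_of_nonneg_right k2 hl.le
    nlinarith

theorem finsum_ind (P : Idl K) : ∑ᶠ v : Pr K, ind (P v) * Real.log (Nv v) = rl P := by
  unfold rl
  rw [finsum_eq_sum_of_support_subset _ (supp_idl P ind ind_zero)]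
  refine Finset.sum_congr rfl fun v hv => ?_
  rw [ind_pos (Finsupp.mem_support_iff.1 hv), one_mul]

theorem finsum_gw (η : ℝ) (P : Idl K) : ∑ᶠ v : Pr K, gw η (P v) * Real.log (Nv v) =
    max η 0 * (len P - 2 * rl P) + max (-η) 0 * rl P := by
  rw [finsum_eq_sum_of_support_subset _ (supp_idl P (gw η) (gw_zero η))]
  unfold len rl gw
  rw [Finset.mul_sum, ← Finset.sum_sub_distrib, Finset.mul_sum, Finset.mul_sum,
    ← Finset.sum_add_distrib]
  refine Finset.sum_congr rfl fun v hv => ?_
  rw [ind_pos (Finsupp.mem_support_iff.1 hv)]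
  ring

/-- **the global inequality**, all invariants -/
theorem glob_gen (E : WeierstrassCurve K) (hE : E.Δ ≠ 0) (h4 : E.c₄ ≠ 0) (h6 : E.c₆ ≠ 0)
    {x : K} (hx : E.c₄ ^ 3 / E.Δ = -1728 * x) {P : Fin 3 → Idl K}
    (hP : IsP ∅ x P) {η : ℝ} (h0 : -1 ≤ η) (h1 : η ≤ 3) :
    discSum E ≤ (9 + η) / 2 * Real.log (multN E) + (9 + η) / 2 * Real.log (addN E) +
      (len (P 1) - (3 + η) * rl (P 1)) + (2 * len (P 0) - (3 + η) * rl (P 0)) +
      (max η 0 * (len (P 2) - 2 * rl (P 2)) + max (-η) 0 * rl (P 2)) +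
        35 * (Module.finrank ℚ K * Real.log 6) := by
  have s1 := supp_disc E hE
  have s2 := supp_mul ((9 + η) / 2) (supp_mw E hE)
  have s3 := supp_mul (9 + η) (supp_aw E hE)
  have s4 := supp_idl_fin (P 1) (fun m => (m : ℝ) - (3 + η) * ind m) (by simp [ind_zero])
  have s5 := supp_idl_fin (P 0) (fun m => 2 * (m : ℝ) - (3 + η) * ind m) (by simp [ind_zero])
  have s6 := supp_idl_fin (P 2) (gw η) (gw_zero η)
  have s7 : (Function.support fun v : Pr K => Real.log (fv v (6 : K))).Finite :=
    Fs_log (K := K) (z := (6 : K)) (by norm_num)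
  have s7' := supp_mul (-35) s7
  have a1 := supp_add s2 s3
  have a2 := supp_add a1 s4
  have a3 := supp_add a2 s5
  have a4 := supp_add a3 s6
  have a5 := supp_add a4 s7'
  have key : ∑ᶠ v : Pr K, (discExp v E : ℝ) * Real.log (Nv v) ≤
      ∑ᶠ v : Pr K, ((9 + η) / 2 * mw v E + (9 + η) * aw v E +
      ((P 1 v : ℝ) - (3 + η) * ind (P 1 v)) * Real.log (Nv v) +
      (2 * (P 0 v : ℝ) - (3 + η) * ind (P 0 v)) * Real.log (Nv v) +
      gw η (P 2 v) * Real.log (Nv v) + -35 * Real.log (fv v (6 : K))) := by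
    refine finsum_le_finsum' s1 a5 fun v => ?_
    have h := loc_gen v E hE h4 h6 hx hP h0 h1
    linarith
  rw [sum_add a4 s7', sum_add a3 s6, sum_add a2 s5, sum_add a1 s4, sum_add s2 s3,
    sum_mul _ (supp_mw E hE), sum_mul _ (supp_aw E hE), sum_mul _ s7, finsum_gw] at key
  have e4 : ∑ᶠ v : Pr K, ((P 1 v : ℝ) - (3 + η) * ind (P 1 v)) * Real.log (Nv v) =
      len (P 1) - (3 + η) * rl (P 1) := by
    rw [← finsum_len (P 1), ← finsum_ind (P 1)]
    have t1 := supp_idl_fin (P 1) (fun m => (m : ℝ)) (by simp)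
    have t2 := supp_idl_fin (P 1) ind ind_zero
    have t2' := supp_mul (-(3 + η)) t2
    have e : ∀ v : Pr K, ((P 1 v : ℝ) - (3 + η) * ind (P 1 v)) * Real.log (Nv v) =
        (P 1 v : ℝ) * Real.log (Nv v) + -(3 + η) * (ind (P 1 v) * Real.log (Nv v)) :=
      fun v => by ring
    rw [finsum_congr e, sum_add t1 t2', sum_mul _ t2]
    ring
  have e5 : ∑ᶠ v : Pr K, (2 * (P 0 v : ℝ) - (3 + η) * ind (P 0 v)) * Real.log (Nv v) =
      2 * len (P 0) - (3 + η) * rl (P 0) := by
    rw [← finsum_len (P 0), ← finsum_ind (P 0)]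
    have t1 := supp_mul 2 (supp_idl_fin (P 0) (fun m => (m : ℝ)) (by simp))
    have t2 := supp_idl_fin (P 0) ind ind_zero
    have t2' := supp_mul (-(3 + η)) t2
    have e : ∀ v : Pr K, (2 * (P 0 v : ℝ) - (3 + η) * ind (P 0 v)) * Real.log (Nv v) =
        2 * ((P 0 v : ℝ) * Real.log (Nv v)) + -(3 + η) * (ind (P 0 v) * Real.log (Nv v)) :=
      fun v => by ring
    rw [finsum_congr e, sum_add t1 t2', sum_mul _ t2,
      sum_mul _ (supp_idl_fin (P 0) (fun m => (m : ℝ)) (by simp))]
    ring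
  rw [e4, e5] at key
  have h6' := fin_nat (K := K) (n := 6) (by norm_num)
  push_cast at h6'
  rw [h6'] at key
  rw [log_multN E hE, log_addN E hE]
  have e1 : discSum E = ∑ᶠ v : Pr K, (discExp v E : ℝ) * Real.log (Nv v) := rfl
  rw [e1]
  linarith

/-- the archimedean part of the height -/
theorem ht_split {x : K} {P : Fin 3 → Idl K} (hP : IsP ∅ x P) :
    ht x = ∑ w : InfinitePlace K, (w.mult : ℝ) * Real.log (max (w x) 1) + len (P 1) := by
  rw [ht_eq_Sa]
  unfold Sa Sm
  congr 1
  rw [← finsum_len (P 1)]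
  refine finsum_congr fun v => ?_
  have hN : 1 < Nv v := Nv_one_lt v
  have hN0 : 0 < Nv v := lt_trans one_pos hN
  have v1 : fv v (1 : K) = max (fv v x) 1 * (Nv v) ^ (-(P 1 v : ℤ)) :=
    hP.val 1 v (Finset.notMem_empty v)
  have hmax : max (fv v x) 1 = (Nv v) ^ (P 1 v : ℤ) := by
    rw [map_one, zpow_neg] at v1
    have hz : (Nv v) ^ (P 1 v : ℤ) ≠ 0 := zpow_ne_zero _ hN0.ne'
    field_simp at v1
    exact v1.symm
  show Real.log (max (fv v x) 1) = _
  rw [hmax, Real.log_zpow]
  push_cast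
  ring

/-- the height of `-1728 x` at the infinite places -/
theorem inf_le (x : K) : ∑ w : InfinitePlace K, (w.mult : ℝ) * Real.log (max (w (-1728 * x)) 1) ≤
    ∑ w : InfinitePlace K, (w.mult : ℝ) * Real.log (max (w x) 1) +
      Module.finrank ℚ K * Real.log 1728 := by
  rw [← sum_mult, Finset.sum_mul, ← Finset.sum_add_distrib]
  refine Finset.sum_le_sum fun w _ => ?_
  rw [← mul_add]
  refine mul_le_mul_of_nonneg_left ?_ (Nat.cast_nonneg _)
  have hm : (1 : ℝ) ≤ max (w x) 1 := le_max_right _ _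
  rw [← Real.log_mul (by linarith) (by norm_num)]
  refine Real.log_le_log (lt_max_of_lt_right one_pos) ?_
  have e : w (1728 : K) = 1728 := by
    have := inf_nat (K := K) w 1728
    exact_mod_cast this
  have e' : w (-1728 * x) = 1728 * w x := by
    rw [map_mul]
    have h5 : w (-1728 : K) = w (1728 : K) := w.1.map_neg _
    rw [h5, e]
  rw [e']
  refine max_le ?_ ?_
  · have := le_max_left (w x) 1
    linarith
  · linarith

end One

/-- the radicals are small -/
def BadP (η : ℝ) {K : Type} [Field K] [NumberField K] (x : K) : Prop :=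
  ∃ P : Fin 3 → Idl K, IsP ∅ x P ∧
    (3 + η) * (rl (P 0) + rl (P 1)) + 2 * η * rl (P 2) < (3 + η) * ht x

/-- the radicals are small -/
def BadN (η : ℝ) {K : Type} [Field K] [NumberField K] (x : K) : Prop :=
  ∃ P : Fin 3 → Idl K, IsP ∅ x P ∧ (3 + η) * (rl (P 0) + rl (P 1)) < (3 - η) * ht x

/-- **Frey's inequality** for all invariants which are not bad -/
theorem frey_gen : ∃ C : ℝ, 0 < C ∧ ∀ (K : Type) [Field K] [NumberField K]
    (E : WeierstrassCurve K) (τ : InfinitePlace K → UpperHalfPlane) (x : K) (η : ℝ), E.Δ ≠ 0 →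
    IsPeriod (E.c₄ ^ 3 / E.Δ) τ → E.c₄ ^ 3 / E.Δ = -1728 * x → Pt x →
    (0 ≤ η ∧ η ≤ 3 ∧ ¬ BadP η x ∨ -1 ≤ η ∧ η ≤ 0 ∧ ¬ BadN η x) →
    discSum E + ∑ w : InfinitePlace K, (w.mult : ℝ) * arch (τ w) ≤
      (9 + η) / 2 * (Real.log (multN E) + Real.log (addN E)) + C * Module.finrank ℚ K := by
  obtain ⟨c, hc0, hc⟩ := arch_le
  have l6 : 0 < Real.log 6 := Real.log_pos (by norm_num)
  have l7 : 0 < Real.log 1728 := Real.log_pos (by norm_num)
  have l2 : 0 < Real.log 2 := Real.log_pos (by norm_num)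
  refine ⟨c + 35 * Real.log 6 + Real.log 1728 + 5 * Real.log 2, by positivity, ?_⟩
  intro K _ _ E τ x η hE hτ hj hPt hbad
  obtain ⟨P, hP⟩ := exists_isP ∅ hPt
  have hj0 : E.c₄ ^ 3 / E.Δ ≠ 0 := by
    rw [hj]
    exact mul_ne_zero (by norm_num) hPt.1
  have hj1 : E.c₄ ^ 3 / E.Δ - 1728 ≠ 0 := by
    rw [hj, show (-1728 * x - 1728 : K) = -1728 * (x + 1) by ring]
    exact mul_ne_zero (by norm_num) hPt.2
  have hη : -1 ≤ η ∧ η ≤ 3 := by
    rcases hbad with h | h
    · exact ⟨by linarith [h.1], h.2.1⟩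
    · exact ⟨h.1, by linarith [h.2.1]⟩
  have h1 := glob_gen E hE (c4_ne hj0) (c6_ne hE hj1) hj hP hη.1 hη.2
  have h2 := hc K _ τ hτ
  rw [hj] at h2
  have h3 := inf_le x
  have h4 := ht_split hP
  set n := Module.finrank ℚ K with hn
  have hn0 : (0 : ℝ) ≤ n := Nat.cast_nonneg _
  have b0 := len_le hPt hP 0
  have b2 := len_le hPt hP 2
  rw [cS_empty] at b0 b2
  have r2 := rl_le_len (P 2)
  have hnl : 0 ≤ (n : ℝ) * Real.log 2 := by positivity
  have key : ht x + 2 * len (P 0) - (3 + η) * (rl (P 0) + rl (P 1)) +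
      (max η 0 * (len (P 2) - 2 * rl (P 2)) + max (-η) 0 * rl (P 2)) ≤ 5 * (n * Real.log 2) := by
    rcases hbad with ⟨k0, k1, k2⟩ | ⟨k0, k1, k2⟩
    · have h5 : (3 + η) * ht x ≤ (3 + η) * (rl (P 0) + rl (P 1)) + 2 * η * rl (P 2) := by
        by_contra hcon
        exact k2 ⟨P, hP, not_le.1 hcon⟩
      rw [max_eq_left k0, max_eq_right (by linarith)]
      have h6 : η * len (P 2) ≤ η * (ht x + n * Real.log 2) := mul_le_mul_of_nonneg_left b2 k0
      have h7 : η * (n * Real.log 2) ≤ 3 * (n * Real.log 2) :=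
        mul_le_mul_of_nonneg_right k1 hnl
      linarith
    · have h5 : (3 - η) * ht x ≤ (3 + η) * (rl (P 0) + rl (P 1)) := by
        by_contra hcon
        exact k2 ⟨P, hP, not_le.1 hcon⟩
      rw [max_eq_right k1, max_eq_left (by linarith)]
      have h6 : -η * rl (P 2) ≤ -η * (ht x + n * Real.log 2) :=
        mul_le_mul_of_nonneg_left (r2.trans b2) (by linarith)
      have h7 : -η * (n * Real.log 2) ≤ 1 * (n * Real.log 2) :=
        mul_le_mul_of_nonneg_right (by linarith) hnl
      linarith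
  linarith

/-- the exponent for `η ≥ 0` -/
theorem badP_count {η ε : ℝ} (h0 : 0 ≤ η) (hε : 0 < ε) : ∃ A : ℝ, 0 ≤ A ∧
    ∀ (K : Type) [Field K] [NumberField K] (X : ℝ) (S : Finset K), 0 ≤ X →
      (∀ x ∈ S, Pt x ∧ ht x ≤ X ∧ BadP η x) →
        (S.card : ℝ) ≤ Real.exp (Module.finrank ℚ K * A +
          ((3 + η) / (3 + 2 * η) + ε) * X) := by
  classical
  obtain ⟨A, hA, hcl⟩ := class_card hε
  refine ⟨A + Real.log 3, by positivity, ?_⟩
  intro K _ _ X S hX hS
  set n := Module.finrank ℚ K with hn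
  have hn1 : (1 : ℝ) ≤ n := by exact_mod_cast Module.finrank_pos (R := ℚ) (M := K)
  have hd : 0 < 3 + 2 * η := by linarith
  set T : ℝ := (3 + η) / (3 + 2 * η) with hT
  have hTd : T * (3 + 2 * η) = 3 + η := div_mul_cancel₀ _ hd.ne'
  have hex : ∀ j : K, ∃ P : Fin 3 → Idl K, j ∈ S → IsP ∅ j P ∧
      (3 + η) * (rl (P 0) + rl (P 1)) + 2 * η * rl (P 2) < (3 + η) * ht j := by
    intro j
    by_cases hj : j ∈ S
    · obtain ⟨P, h⟩ := (hS j hj).2.2
      exact ⟨P, fun _ => h⟩
    · exact ⟨0, fun h => absurd h hj⟩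
  choose P hP using hex
  have hclass : ∀ p q : Fin 3, p ≠ q →
      ((S.filter fun x => rl (P x p) + rl (P x q) ≤ T * X).card : ℝ) ≤
        Real.exp (n * A + T * X + ε * X) := by
    intro p q hpq
    refine hcl K X (T * X) _ P p q hpq fun x hx => ?_
    obtain ⟨h1, h2⟩ := Finset.mem_filter.1 hx
    obtain ⟨g1, g2, _⟩ := hS x h1
    exact ⟨g1, g2, (hP x h1).1, h2⟩
  have hcov : S ⊆ (S.filter fun x => rl (P x 0) + rl (P x 1) ≤ T * X) ∪
      ((S.filter fun x => rl (P x 0) + rl (P x 2) ≤ T * X) ∪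
      (S.filter fun x => rl (P x 1) + rl (P x 2) ≤ T * X)) := by
    intro x hx
    rw [Finset.mem_union, Finset.mem_union, Finset.mem_filter, Finset.mem_filter,
      Finset.mem_filter]
    by_contra hcon
    push Not at hcon
    obtain ⟨c1, c2, c3⟩ := hcon
    have c1 := c1 hx
    have c2 := c2 hx
    have c3 := c3 hx
    obtain ⟨g1, g2, _⟩ := hS x hx
    have k0 := (hP x hx).2
    have k3 : (3 + η) * ht x ≤ (3 + η) * X := mul_le_mul_of_nonneg_left g2 (by linarith)
    have k4 : (3 + η) * X = T * (3 + 2 * η) * X := by rw [hTd]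
    have k5 : η * (T * X) ≤ η * (rl (P x 0) + rl (P x 2)) := mul_le_mul_of_nonneg_left c2.le h0
    have k6 : η * (T * X) ≤ η * (rl (P x 1) + rl (P x 2)) := mul_le_mul_of_nonneg_left c3.le h0
    nlinarith
  have hcard : (S.card : ℝ) ≤ 3 * Real.exp (n * A + T * X + ε * X) := by
    have h1 := (Finset.card_le_card hcov).trans ((Finset.card_union_le _ _).trans
      (Nat.add_le_add_left (Finset.card_union_le _ _) _))
    have h2 : (S.card : ℝ) ≤ ((S.filter fun x => rl (P x 0) + rl (P x 1) ≤ T * X).card : ℝ) +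
      (((S.filter fun x => rl (P x 0) + rl (P x 2) ≤ T * X).card : ℝ) +
      ((S.filter fun x => rl (P x 1) + rl (P x 2) ≤ T * X).card : ℝ)) := by exact_mod_cast h1
    have := hclass 0 1 (by decide)
    have := hclass 0 2 (by decide)
    have := hclass 1 2 (by decide)
    linarith
  have h3n : (3 : ℝ) ≤ Real.exp (n * Real.log 3) := by
    have h5 : Real.exp (Real.log 3) ≤ Real.exp (n * Real.log 3) := by
      apply Real.exp_le_exp.2
      have : 0 ≤ Real.log 3 := Real.log_nonneg (by norm_num)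
      nlinarith
    rwa [Real.exp_log (by norm_num)] at h5
  calc (S.card : ℝ) ≤ 3 * Real.exp (n * A + T * X + ε * X) := hcard
    _ ≤ Real.exp (n * Real.log 3) * Real.exp (n * A + T * X + ε * X) :=
        mul_le_mul_of_nonneg_right h3n (Real.exp_pos _).le
    _ = _ := by
        rw [← Real.exp_add]
        congr 1
        ring

/-- the exponent for `η ≤ 0` -/
theorem badN_count {η ε : ℝ} (h1 : -1 ≤ η) (h0 : η ≤ 0) (hε : 0 < ε) : ∃ A : ℝ, 0 ≤ A ∧
    ∀ (K : Type) [Field K] [NumberField K] (X : ℝ) (S : Finset K), 0 ≤ X →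
      (∀ x ∈ S, Pt x ∧ ht x ≤ X ∧ BadN η x) →
        (S.card : ℝ) ≤ Real.exp (Module.finrank ℚ K * A +
          ((3 - η) / (3 + η) + ε) * X) := by
  classical
  obtain ⟨A, hA, hcl⟩ := class_card hε
  refine ⟨A, hA, ?_⟩
  intro K _ _ X S hX hS
  set n := Module.finrank ℚ K with hn
  have hd : 0 < 3 + η := by linarith
  set T : ℝ := (3 - η) / (3 + η) with hT
  have hTd : T * (3 + η) = 3 - η := div_mul_cancel₀ _ hd.ne'
  have hex : ∀ j : K, ∃ P : Fin 3 → Idl K, j ∈ S → IsP ∅ j P ∧
      (3 + η) * (rl (P 0) + rl (P 1)) < (3 - η) * ht j := by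
    intro j
    by_cases hj : j ∈ S
    · obtain ⟨P, h⟩ := (hS j hj).2.2
      exact ⟨P, fun _ => h⟩
    · exact ⟨0, fun h => absurd h hj⟩
  choose P hP using hex
  refine (hcl K X (T * X) S P 0 1 (by decide) fun x hx => ?_).trans (le_of_eq ?_)
  · obtain ⟨g1, g2, _⟩ := hS x hx
    refine ⟨g1, g2, (hP x hx).1, ?_⟩
    have k0 := (hP x hx).2
    have k3 : (3 - η) * ht x ≤ (3 - η) * X := mul_le_mul_of_nonneg_left g2 (by linarith)
    have k4 : (3 - η) * X = (3 + η) * (T * X) := by rw [← hTd]; ring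
    have k5 : (3 + η) * (rl (P x 0) + rl (P x 1)) ≤ (3 + η) * (T * X) := by linarith
    exact le_of_mul_le_mul_left k5 hd
  · congr 1
    ring

end Pool.Agent.H85.F
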