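import Mathlib
import Pool.Agent.H85.F.Gen
import Pool.Graph.R_seed8.Y729.FW.Surj
import Pool.Graph.R_seed8.W45.AK.UNI

/-!
# A quadratic twist with a large height for every invariant
-/

set_option autoImplicit false
set_option linter.unusedSectionVars false

namespace Pool.Agent.H85.F

open NumberField IsDedekindDomain Pool.Agent.H691R3 Pool.Agent.W223.AK Pool.Agent.Y733.LS
open Pool.Agent.Y733.FF Pool.Agent.Y733.UD
open Pool.Agent.TH876.FH (GoodAt IsPeriod arch jInv Hj_height Hj_norm)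

section One

variable {K : Type} [Field K] [NumberField K]

/-- the curve with `c₄ = j (j - 1728) u ^ 2` and `c₆ = j (j - 1728) ^ 2 u ^ 3` -/
def crv (j u : K) : WeierstrassCurve K :=
  ⟨0, 0, 0, -(j * (j - 1728) * u ^ 2) / 48, -(j * (j - 1728) ^ 2 * u ^ 3) / 864⟩

theorem crv_c4 (j u : K) : (crv j u).c₄ = j * (j - 1728) * u ^ 2 := by
  simp only [crv, WeierstrassCurve.c₄, WeierstrassCurve.b₂, WeierstrassCurve.b₄]
  ring

theorem crv_c6 (j u : K) : (crv j u).c₆ = j * (j - 1728) ^ 2 * u ^ 3 := by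
  simp only [crv, WeierstrassCurve.c₆, WeierstrassCurve.b₂, WeierstrassCurve.b₄,
    WeierstrassCurve.b₆]
  ring

theorem crv_Δ (j u : K) : (crv j u).Δ = j ^ 2 * (j - 1728) ^ 3 * u ^ 6 := by
  have h := (crv j u).c_relation
  rw [crv_c4, crv_c6] at h
  have h2 : (1728 : K) * (crv j u).Δ = 1728 * (j ^ 2 * (j - 1728) ^ 3 * u ^ 6) := by
    rw [h]
    ring
  exact mul_left_cancel₀ (by norm_num) h2

theorem crv_j {j u : K} (hj : j ≠ 0) (hj' : j - 1728 ≠ 0) (hu : u ≠ 0) :
    (crv j u).Δ ≠ 0 ∧ (crv j u).c₄ ^ 3 / (crv j u).Δ = j := by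
  have h : (crv j u).Δ ≠ 0 := by
    rw [crv_Δ]
    exact mul_ne_zero (mul_ne_zero (pow_ne_zero _ hj) (pow_ne_zero _ hj')) (pow_ne_zero _ hu)
  refine ⟨h, ?_⟩
  rw [div_eq_iff h, crv_c4, crv_Δ]
  ring

/-- an integral equation -/
theorem ex_int (v : Pr K) (E : WeierstrassCurve K) (hE : E.Δ ≠ 0) :
    ∃ C : WeierstrassCurve.VariableChange K, IntAt v (C • E) := by
  have hN : 0 < Nv v := lt_trans one_pos (Nv_one_lt v)
  obtain ⟨k, h4, h6, -⟩ := exists_k v (x := E.c₄ / 48) (y := E.c₆ / 864) (by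
    rcases c46 E hE with h | h
    · exact Or.inl (div_ne_zero h (by norm_num))
    · exact Or.inr (div_ne_zero h (by norm_num)))
  obtain ⟨u, hu⟩ := exists_fv v k
  have hu0 : u ≠ 0 := by
    rintro rfl
    rw [map_zero] at hu
    exact absurd hu.symm (zpow_ne_zero _ hN.ne')
  obtain ⟨C, c1, c2, c3, c4, c6, c7⟩ := short E (Units.mk0 u hu0)
  have e : (((Units.mk0 u hu0)⁻¹ : Kˣ) : K) = u⁻¹ := rfl
  rw [e] at c4 c6 c7
  have hle : ∀ x : K, ∀ m : ℕ, fv v x ≤ (Nv v) ^ ((m : ℤ) * k) →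
      fv v (-x * u⁻¹ ^ m) ≤ 1 := by
    intro x m hx
    rw [map_mul, map_neg_eq_map, map_pow, map_inv₀, hu, inv_pow, ← div_eq_mul_inv,
      div_le_one (pow_pos (zpow_pos hN _) _)]
    refine hx.trans (le_of_eq ?_)
    rw [mul_comm, zpow_mul, zpow_natCast]
  refine ⟨C, ?_, ?_, ?_, ?_, ?_⟩
  · rw [c1, map_zero]; exact zero_le_one
  · rw [c2, map_zero]; exact zero_le_one
  · rw [c3, map_zero]; exact zero_le_one
  · rw [c4, ← fv_le_one_iff v]
    exact hle _ 4 (by exact_mod_cast h4)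
  · rw [c6, ← fv_le_one_iff v]
    exact hle _ 6 (by exact_mod_cast h6)

/-- the minimal equation -/
theorem disc_mem (v : Pr K) (E : WeierstrassCurve K) (hE : E.Δ ≠ 0) :
    ∃ C : WeierstrassCurve.VariableChange K, IntAt v (C • E) ∧
      v.valuation K (C • E).Δ = WithZero.exp (-(discExp v E : ℤ)) := by
  have hne : {m : ℕ | ∃ C : WeierstrassCurve.VariableChange K, IntAt v (C • E) ∧
    v.valuation K (C • E).Δ = WithZero.exp (-(m : ℤ))}.Nonempty := by
    obtain ⟨C, hC⟩ := ex_int v E hE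
    obtain ⟨m, hm⟩ := val_exp v (disc_ne E hE C) (int_disc v _ hC).1
    exact ⟨m, C, hC, hm⟩
  exact Nat.sInf_mem hne

/-- a pole of `j` bounds the discriminant -/
theorem disc_pole (v : Pr K) (E : WeierstrassCurve K) (hE : E.Δ ≠ 0) :
    Real.log (max (fv v (E.c₄ ^ 3 / E.Δ)) 1) ≤ (discExp v E : ℝ) * Real.log (Nv v) := by
  obtain ⟨C, hC, hm⟩ := disc_mem v E hE
  have h1 := fv_exp v hm
  have h0 := disc_ne E hE C
  have hl := log_Nv_pos v
  have hm0 : 0 ≤ (discExp v E : ℝ) * Real.log (Nv v) := mul_nonneg (Nat.cast_nonneg _) hl.le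
  have hc := (fv_le_one_iff v).2 (int_disc v _ hC).2
  have hΔ : 0 < fv v (C • E).Δ := (fv v).pos h0
  have hj : fv v (E.c₄ ^ 3 / E.Δ) ≤ (fv v (C • E).Δ)⁻¹ := by
    rw [j_change E hE C, map_div₀, map_pow, div_eq_mul_inv]
    exact mul_le_of_le_one_left (inv_nonneg.2 hΔ.le) (pow_le_one₀ ((fv v).nonneg _) hc)
  have h2 : (discExp v E : ℝ) * Real.log (Nv v) = Real.log ((fv v (C • E).Δ)⁻¹) := by
    rw [Real.log_inv, h1]
    ring
  rcases max_choice (fv v (E.c₄ ^ 3 / E.Δ)) 1 with h | h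
  · rw [h]
    rcases eq_or_lt_of_le ((fv v).nonneg (E.c₄ ^ 3 / E.Δ)) with h3 | h3
    · rw [← h3, Real.log_zero]
      exact hm0
    · rw [h2]
      exact Real.log_le_log h3 hj
  · rw [h, Real.log_one]
    exact hm0

/-- the exponents of the minimal equation -/
theorem disc_exps (v : Pr K) (E : WeierstrassCurve K) (hE : E.Δ ≠ 0) {a d : ℤ}
    (ha : fv v E.c₄ = (Nv v) ^ (-a)) (hd : fv v E.Δ = (Nv v) ^ (-d)) :
    ∃ k : ℤ, (discExp v E : ℤ) = d - 12 * k ∧ 0 ≤ a - 4 * k := by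
  have hN : 1 < Nv v := Nv_one_lt v
  have hN0 : 0 < Nv v := lt_trans one_pos hN
  have hl := log_Nv_pos v
  obtain ⟨C, hC, hm⟩ := disc_mem v E hE
  have h1 := fv_exp v hm
  obtain ⟨k, hk⟩ := fv_zpow v (x := ((C.u⁻¹ : Kˣ) : K)) (Units.ne_zero _)
  refine ⟨k, ?_, ?_⟩
  · rw [WeierstrassCurve.variableChange_Δ, map_mul, map_pow, hk, hd, ← zpow_natCast, ← zpow_mul,
      ← zpow_add₀ hN0.ne', Real.log_zpow] at h1
    have h2 : ((discExp v E : ℤ) : ℝ) * Real.log (Nv v) =
        ((d - 12 * k : ℤ) : ℝ) * Real.log (Nv v) := by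
      push_cast
      push_cast at h1
      linarith
    exact_mod_cast mul_right_cancel₀ hl.ne' h2
  · have h2 := (fv_le_one_iff v).2 (int_disc v _ hC).2
    rw [WeierstrassCurve.variableChange_c₄, map_mul, map_pow, hk, ha, ← zpow_natCast, ← zpow_mul,
      ← zpow_add₀ hN0.ne'] at h2
    by_contra hcon
    push Not at hcon
    have h3 : 1 < (Nv v) ^ (k * ((4 : ℕ) : ℤ) + -a) := by
      apply one_lt_zpow₀ hN
      push_cast
      linarith
    linarith

/-- good reduction -/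
theorem good_of_exps (v : Pr K) (E : WeierstrassCurve K) (h2 : fv v (2 : K) = 1)
    (h3 : fv v (3 : K) = 1) {a b k : ℤ}
    (ha : fv v E.c₄ = (Nv v) ^ (-a)) (hb : fv v E.c₆ = (Nv v) ^ (-b))
    (hd : fv v E.Δ = (Nv v) ^ (-(12 * k))) (h4 : 4 * k ≤ a) (h6 : 6 * k ≤ b) : GoodAt v E := by
  have hN : 1 < Nv v := Nv_one_lt v
  have hN0 : 0 < Nv v := lt_trans one_pos hN
  obtain ⟨e48, e864, -⟩ := fv48 v h2 h3
  obtain ⟨u, hu⟩ := exists_fv v (-k)
  have hu0 : u ≠ 0 := by
    rintro rfl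
    rw [map_zero] at hu
    exact absurd hu.symm (zpow_ne_zero _ hN0.ne')
  obtain ⟨C, c1, c2, c3, c4, c6, c7⟩ := short E (Units.mk0 u hu0)
  have e : (((Units.mk0 u hu0)⁻¹ : Kˣ) : K) = u⁻¹ := rfl
  rw [e] at c4 c6 c7
  have hui : fv v u⁻¹ = (Nv v) ^ k := by rw [map_inv₀, hu, zpow_neg, inv_inv]
  refine ⟨C, ?_, ?_, ?_, ?_, ?_, ?_⟩
  · rw [c1, map_zero]; exact zero_le_one
  · rw [c2, map_zero]; exact zero_le_one
  · rw [c3, map_zero]; exact zero_le_one
  · rw [c4, ← fv_le_one_iff v, map_mul, map_neg_eq_map, map_div₀, e48, div_one, map_pow, hui, ha,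
      ← zpow_natCast, ← zpow_mul, ← zpow_add₀ hN0.ne']
    apply zpow_le_one_of_nonpos₀ hN.le
    push_cast
    linarith
  · rw [c6, ← fv_le_one_iff v, map_mul, map_neg_eq_map, map_div₀, e864, div_one, map_pow, hui, hb,
      ← zpow_natCast, ← zpow_mul, ← zpow_add₀ hN0.ne']
    apply zpow_le_one_of_nonpos₀ hN.le
    push_cast
    linarith
  · rw [c7, ← fv_one_iff v, map_mul, map_pow, hui, hd, ← zpow_natCast, ← zpow_mul,
      ← zpow_add₀ hN0.ne']
    have : k * ((12 : ℕ) : ℤ) + -(12 * k) = 0 := by push_cast; ring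
    rw [this, zpow_zero]

end One

/-- the exponent of the discriminant of the twist -/
def dd (r p s : ℕ) : ℕ :=
  if p ≠ 0 then p + 6 else if r % 3 = 1 then 8 else if r % 3 = 2 then 10
    else if s % 2 = 1 then 9 else 0

/-- bad reduction of the twist -/
def bd (r p s : ℕ) : ℕ :=
  if p ≠ 0 then 1 else if r % 3 = 1 then 1 else if r % 3 = 2 then 1
    else if s % 2 = 1 then 1 else 0

/-- the parity of the twisting element -/
def pf (r p s : ℕ) : ℕ :=
  if p ≠ 0 then (p + 1) % 2 else if r ≠ 0 then (r / 3 + if r % 3 = 0 then 0 else 1) % 2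
    else (s / 2 + s % 2) % 2

theorem pf_zero : pf 0 0 0 = 0 := by decide

section One

variable {K : Type} [Field K] [NumberField K]

/-- the exponents of a point -/
theorem exps {x : K} {P : Fin 3 → Idl K} (hP : IsP ∅ x P) (v : Pr K) :
    (P 1 v ≠ 0 → P 0 v = 0 ∧ P 2 v = 0) ∧ (P 0 v = 0 ∨ P 2 v = 0) ∧
    fv v x = (Nv v) ^ (-((P 0 v : ℤ) - (P 1 v : ℤ))) ∧
    fv v (x + 1) = (Nv v) ^ (-((P 2 v : ℤ) - (P 1 v : ℤ))) ∧
    max (fv v x) 1 = (Nv v) ^ (P 1 v : ℤ) := by
  have hN : 1 < Nv v := Nv_one_lt v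
  have hN0 : 0 < Nv v := lt_trans one_pos hN
  have v0 : fv v x = max (fv v x) 1 * (Nv v) ^ (-(P 0 v : ℤ)) :=
    hP.val 0 v (Finset.notMem_empty v)
  have v1 : fv v (1 : K) = max (fv v x) 1 * (Nv v) ^ (-(P 1 v : ℤ)) :=
    hP.val 1 v (Finset.notMem_empty v)
  have v2 : fv v (x + 1) = max (fv v x) 1 * (Nv v) ^ (-(P 2 v : ℤ)) :=
    hP.val 2 v (Finset.notMem_empty v)
  have hmax : max (fv v x) 1 = (Nv v) ^ (P 1 v : ℤ) := by
    rw [map_one, zpow_neg] at v1
    have hz : (Nv v) ^ (P 1 v : ℤ) ≠ 0 := zpow_ne_zero _ hN0.ne'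
    field_simp at v1
    exact v1.symm
  rw [hmax, ← zpow_add₀ hN0.ne'] at v0 v2
  have w0 : fv v x = (Nv v) ^ (-((P 0 v : ℤ) - (P 1 v : ℤ))) := by
    rw [v0]; congr 1; ring
  have w2 : fv v (x + 1) = (Nv v) ^ (-((P 2 v : ℤ) - (P 1 v : ℤ))) := by
    rw [v2]; congr 1; ring
  refine ⟨fun hp => ?_, ?_, w0, w2, hmax⟩
  · have hx1 : 1 < fv v x := by
      have hmax1 : 1 < max (fv v x) 1 := by
        rw [hmax]
        exact one_lt_zpow₀ hN (by omega)
      rcases max_choice (fv v x) 1 with h | h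
      · rwa [h] at hmax1
      · rw [h] at hmax1
        exact absurd hmax1 (lt_irrefl _)
    have hxm : max (fv v x) 1 = fv v x := max_eq_left hx1.le
    have h5 : fv v (x + 1) = fv v x := (fv_Na v).eq (by rw [map_one]; exact hx1)
    rw [hmax] at hxm
    rw [w2, ← hxm] at h5
    rw [w0] at hxm
    have h6 := (zpow_right_injective₀ hN0 hN.ne') hxm
    have h7 := (zpow_right_injective₀ hN0 hN.ne') h5
    constructor
    · omega
    · omega
  · by_contra hcon
    push Not at hcon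
    by_cases hp : P 1 v = 0
    · have h4 : fv v ((x + 1) - x) < 1 := by
        refine (fv_Na v).lt_sub ?_ ?_
        · rw [w2]
          exact zpow_lt_one_of_neg₀ hN (by omega)
        · rw [w0]
          exact zpow_lt_one_of_neg₀ hN (by omega)
      rw [add_sub_cancel_left, map_one] at h4
      exact lt_irrefl _ h4
    · have hx1 : 1 < fv v x := by
        have hmax1 : 1 < max (fv v x) 1 := by
          rw [hmax]
          exact one_lt_zpow₀ hN (by omega)
        rcases max_choice (fv v x) 1 with h | h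
        · rwa [h] at hmax1
        · rw [h] at hmax1
          exact absurd hmax1 (lt_irrefl _)
      have hxm : max (fv v x) 1 = fv v x := max_eq_left hx1.le
      rw [hmax, w0] at hxm
      have h6 : (P 1 v : ℤ) = -((P 0 v : ℤ) - (P 1 v : ℤ)) :=
        (zpow_right_injective₀ hN0 hN.ne') hxm
      omega

/-- **the twist at one prime** -/
theorem loc_att (v : Pr K) (h2 : fv v (2 : K) = 1) (h3 : fv v (3 : K) = 1) {x : K}
    (hx : Pt x) {P : Fin 3 → Idl K} (hP : IsP ∅ x P) {u : K} (hu0 : u ≠ 0)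
    (hu : fv v u = (Nv v) ^ (-(pf (P 0 v) (P 1 v) (P 2 v) : ℤ))) :
    dd (P 0 v) (P 1 v) (P 2 v) ≤ discExp v (crv (-1728 * x) u) ∧
    (bd (P 0 v) (P 1 v) (P 2 v) = 0 → GoodAt v (crv (-1728 * x) u)) := by
  have hN : 1 < Nv v := Nv_one_lt v
  have hN0 : 0 < Nv v := lt_trans one_pos hN
  obtain ⟨-, -, e1728⟩ := fv48 v h2 h3
  obtain ⟨e1, e2, w0, w2, -⟩ := exps hP v
  generalize P 0 v = r at *
  generalize P 1 v = p at *
  generalize P 2 v = s at *
  have ej : fv v (-1728 * x) = (Nv v) ^ (-((r : ℤ) - (p : ℤ))) := by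
    rw [map_mul, (fv v).map_neg, e1728, one_mul, w0]
  have ej' : fv v (-1728 * x - 1728) = (Nv v) ^ (-((s : ℤ) - (p : ℤ))) := by
    rw [show (-1728 * x - 1728 : K) = -1728 * (x + 1) by ring, map_mul, (fv v).map_neg, e1728,
      one_mul, w2]
  have hj0 : (-1728 * x : K) ≠ 0 := mul_ne_zero (by norm_num) hx.1
  have hj1 : (-1728 * x - 1728 : K) ≠ 0 := by
    rw [show (-1728 * x - 1728 : K) = -1728 * (x + 1) by ring]
    exact mul_ne_zero (by norm_num) hx.2
  obtain ⟨hE, -⟩ := crv_j hj0 hj1 hu0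
  set π : ℕ := pf r p s with hπ
  have ha : fv v (crv (-1728 * x) u).c₄ =
      (Nv v) ^ (-((r : ℤ) + s - 2 * p + 2 * π)) := by
    rw [crv_c4, map_mul, map_mul, map_pow, ej, ej', hu, ← zpow_natCast, ← zpow_mul,
      ← zpow_add₀ hN0.ne', ← zpow_add₀ hN0.ne']
    congr 1
    push_cast
    ring
  have hb : fv v (crv (-1728 * x) u).c₆ =
      (Nv v) ^ (-((r : ℤ) + 2 * s - 3 * p + 3 * π)) := by
    rw [crv_c6, map_mul, map_mul, map_pow, map_pow, ej, ej', hu, ← zpow_natCast, ← zpow_mul,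
      ← zpow_natCast, ← zpow_mul, ← zpow_add₀ hN0.ne', ← zpow_add₀ hN0.ne']
    congr 1
    push_cast
    ring
  have hd : fv v (crv (-1728 * x) u).Δ =
      (Nv v) ^ (-(2 * (r : ℤ) + 3 * s - 5 * p + 6 * π)) := by
    rw [crv_Δ, map_mul, map_mul, map_pow, map_pow, map_pow, ej, ej', hu, ← zpow_natCast,
      ← zpow_mul, ← zpow_natCast, ← zpow_mul, ← zpow_natCast, ← zpow_mul, ← zpow_add₀ hN0.ne',
      ← zpow_add₀ hN0.ne']
    congr 1
    push_cast
    ring
  constructor
  · obtain ⟨k, k1, k2⟩ := disc_exps v _ hE ha hd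
    generalize discExp v (crv (-1728 * x) u) = D at *
    unfold pf at hπ
    unfold dd
    split_ifs at hπ ⊢ <;> omega
  · intro hbd
    unfold bd at hbd
    have hp : p = 0 := by
      by_contra h
      rw [if_pos h] at hbd
      omega
    subst hp
    have hr3 : r % 3 = 0 := by
      split_ifs at hbd <;> omega
    have hs2 : s % 2 = 0 := by
      split_ifs at hbd <;> omega
    obtain ⟨k, hk⟩ : ∃ k : ℤ, 2 * (r : ℤ) + 3 * s - 5 * ((0 : ℕ) : ℤ) + 6 * π = 12 * k := by
      refine ⟨(2 * (r : ℤ) + 3 * s + 6 * π) / 12, ?_⟩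
      unfold pf at hπ
      split_ifs at hπ <;> omega
    rw [hk] at hd
    refine good_of_exps v _ h2 h3 ha hb hd ?_ ?_
    · omega
    · omega

theorem cond_le (v : Pr K) (E : WeierstrassCurve K) :
    mw v E + 2 * aw v E ≤ 2 * Real.log (Nv v) ∧ (GoodAt v E → mw v E + 2 * aw v E = 0) := by
  have hl := log_Nv_pos v
  unfold mw aw
  constructor
  · split_ifs with h1 h2 h2
    · exact absurd h1.2.1 h2.1
    · linarith
    · linarith
    · linarith
  · intro hg
    rw [if_neg (fun h => h.1 hg), if_neg (fun h => h.1 (semi_of_good hg))]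
    ring

end One

/-- **a twist with a large height** -/
theorem attain (K : Type) [Field K] [NumberField K] (lam c0 : ℝ) (hlam : 0 ≤ lam) :
    ∃ CK : ℝ, ∀ (x : K) (P : Fin 3 → Idl K), Pt x → IsP ∅ x P → ∃ E : WeierstrassCurve K,
      E.Δ ≠ 0 ∧ E.c₄ ^ 3 / E.Δ = -1728 * x ∧ ∀ W : ℕ → ℕ → ℕ → ℝ, W 0 0 0 = 0 →
      (∀ r p s, (p ≠ 0 → r = 0 ∧ s = 0) → (r = 0 ∨ s = 0) →
        W r p s ≤ dd r p s - 2 * lam * bd r p s ∧ W r p s ≤ p + c0) →
      ∑ᶠ v : Pr K, W (P 0 v) (P 1 v) (P 2 v) * Real.log (Nv v) ≤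
        discSum E - lam * (Real.log (multN E) + Real.log (addN E)) + CK := by
  classical
  obtain ⟨S, hS1, ϖ, C, hU⟩ := Pool.Agent.W45.AK.uni (K := K)
    (fv_support_finite (x := (6 : K)) (by norm_num)).toFinset
  have hsix : ∀ v, v ∉ S → fv v (6 : K) = 1 := by
    intro v hv
    by_contra h
    exact hv (hS1 ((Set.Finite.mem_toFinset _).2 h))
  set g : Pr K → ℝ := fun v => if v ∈ S then (c0 + 2 * lam) * Real.log (Nv v) -
    Real.log (fv v (1728 : K)) else 0 with hg
  refine ⟨∑ᶠ v : Pr K, g v, ?_⟩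
  intro x P hx hP
  -- the twisting element
  have hfin : (Function.support fun v : Pr K =>
      if v ∈ S then 0 else pf (P 0 v) (P 1 v) (P 2 v)).Finite := by
    refine (((P 0).support.finite_toSet.union ((P 1).support.finite_toSet.union
      (P 2).support.finite_toSet))).subset ?_
    intro v hv
    by_contra hcon
    simp only [Set.mem_union, Finset.mem_coe, Finsupp.mem_support_iff, not_or, not_not] at hcon
    obtain ⟨z0, z1, z2⟩ := hcon
    apply hv
    show (if v ∈ S then 0 else pf (P 0 v) (P 1 v) (P 2 v)) = 0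
    rw [z0, z1, z2, pf_zero, ite_self]
  set a : Idl K := Finsupp.ofSupportFinite _ hfin with ha
  have hav : ∀ v, a v = if v ∈ S then 0 else pf (P 0 v) (P 1 v) (P 2 v) := fun v => rfl
  have haS : OffS S a := by
    intro v hv
    rw [hav, if_pos hv]
  set u : K := gen ϖ a with hu
  have hu0 : u ≠ 0 := gen_ne hU a
  have hfu : ∀ v, v ∉ S → fv v u = (Nv v) ^ (-(pf (P 0 v) (P 1 v) (P 2 v) : ℤ)) := by
    intro v hv
    rw [hu, fv_gen hU haS hv, hav, if_neg hv]
  have hj0 : (-1728 * x : K) ≠ 0 := mul_ne_zero (by norm_num) hx.1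
  have hj1 : (-1728 * x - 1728 : K) ≠ 0 := by
    rw [show (-1728 * x - 1728 : K) = -1728 * (x + 1) by ring]
    exact mul_ne_zero (by norm_num) hx.2
  obtain ⟨hE, hEj⟩ := crv_j hj0 hj1 hu0
  set E := crv (-1728 * x) u with hEdef
  refine ⟨E, hE, hEj, ?_⟩
  intro W hW0 hW
  have s1 := supp_disc E hE
  have s2 := supp_mul (-lam) (supp_mw E hE)
  have s3 := supp_mul (-(2 * lam)) (supp_aw E hE)
  have s4 : (Function.support g).Finite := by
    refine S.finite_toSet.subset ?_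
    intro v hv
    by_contra hcon
    apply hv
    show g v = 0
    rw [hg]
    exact if_neg hcon
  have s5 : (Function.support fun v : Pr K =>
      W (P 0 v) (P 1 v) (P 2 v) * Real.log (Nv v)).Finite := by
    refine (((P 0).support.finite_toSet.union ((P 1).support.finite_toSet.union
      (P 2).support.finite_toSet))).subset ?_
    intro v hv
    by_contra hcon
    simp only [Set.mem_union, Finset.mem_coe, Finsupp.mem_support_iff, not_or, not_not] at hcon
    obtain ⟨z0, z1, z2⟩ := hcon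
    apply hv
    show W (P 0 v) (P 1 v) (P 2 v) * Real.log (Nv v) = 0
    rw [z0, z1, z2, hW0, zero_mul]
  have a1 := supp_add s1 s2
  have a2 := supp_add a1 s3
  have a3 := supp_add a2 s4
  have key : ∑ᶠ v : Pr K, W (P 0 v) (P 1 v) (P 2 v) * Real.log (Nv v) ≤
      ∑ᶠ v : Pr K, ((discExp v E : ℝ) * Real.log (Nv v) + -lam * mw v E +
        -(2 * lam) * aw v E + g v) := by
    refine finsum_le_finsum' s5 a3 fun v => ?_
    have hl := log_Nv_pos v
    obtain ⟨e1, e2, w0, w2, hmax⟩ := exps hP v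
    obtain ⟨c1, c2⟩ := cond_le v E
    obtain ⟨W1, W2⟩ := hW _ _ _ e1 e2
    by_cases hv : v ∈ S
    · have hgv : g v = (c0 + 2 * lam) * Real.log (Nv v) - Real.log (fv v (1728 : K)) := by
        rw [hg]
        exact if_pos hv
      rw [hgv]
      have h1 := disc_pole v E hE
      rw [hEj] at h1
      have h1728 : 0 < fv v (1728 : K) := (fv v).pos (by norm_num)
      have h1728' : fv v (1728 : K) ≤ 1 := (fv_Na v).ofNat 1728
      have h2 : (P 1 v : ℝ) * Real.log (Nv v) + Real.log (fv v (1728 : K)) ≤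
          Real.log (max (fv v (-1728 * x)) 1) := by
        have e3 : (P 1 v : ℝ) * Real.log (Nv v) = Real.log (max (fv v x) 1) := by
          rw [hmax, Real.log_zpow]
          push_cast
          ring
        have hm : (0 : ℝ) < max (fv v x) 1 := lt_max_of_lt_right one_pos
        rw [e3, ← Real.log_mul hm.ne' h1728.ne']
        refine Real.log_le_log (mul_pos hm h1728) ?_
        rw [map_mul, (fv v).map_neg, max_mul_of_nonneg _ _ h1728.le, one_mul, mul_comm]
        exact max_le_max le_rfl h1728'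
      have h3 := mul_le_mul_of_nonneg_right W2 hl.le
      have h4 := mul_le_mul_of_nonneg_left c1 hlam
      nlinarith
    · have hgv : g v = 0 := by
        rw [hg]
        exact if_neg hv
      rw [hgv]
      obtain ⟨h2, h3⟩ := two_three v (hsix v hv)
      obtain ⟨k1, k2⟩ := loc_att v h2 h3 hx hP hu0 (hfu v hv)
      have k1' : (dd (P 0 v) (P 1 v) (P 2 v) : ℝ) ≤ discExp v E := Nat.cast_le.2 k1
      have k3 := mul_le_mul_of_nonneg_right W1 hl.le
      have k4 := mul_le_mul_of_nonneg_right k1' hl.le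
      rcases Nat.eq_zero_or_pos (bd (P 0 v) (P 1 v) (P 2 v)) with hb | hb
      · have k5 := c2 (k2 hb)
        rw [hb] at k3
        have k6 : lam * (mw v E + 2 * aw v E) = 0 := by rw [k5, mul_zero]
        push_cast at k3
        nlinarith
      · have k5 : (1 : ℝ) ≤ bd (P 0 v) (P 1 v) (P 2 v) := by exact_mod_cast hb
        have k6 := mul_le_mul_of_nonneg_left c1 hlam
        have k7 : 2 * lam * Real.log (Nv v) ≤
            2 * lam * bd (P 0 v) (P 1 v) (P 2 v) * Real.log (Nv v) := by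
          have : 0 ≤ 2 * lam * Real.log (Nv v) := by positivity
          nlinarith
        nlinarith
  rw [sum_add a2 s4, sum_add a1 s3, sum_add s1 s2, sum_mul _ (supp_mw E hE),
    sum_mul _ (supp_aw E hE)] at key
  rw [log_multN E hE, log_addN E hE]
  have e1 : discSum E = ∑ᶠ v : Pr K, (discExp v E : ℝ) * Real.log (Nv v) := rfl
  rw [e1]
  linarith

end Pool.Agent.H85.F
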