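import Mathlib
import Pool.Agent.H85.F.Att

/-!
# Lower bounds for the Faltings heights of the twists
-/

set_option autoImplicit false
set_option linter.unusedSectionVars false

namespace Pool.Agent.H85.F

open NumberField IsDedekindDomain Pool.Agent.H691R3 Pool.Agent.W223.AK Pool.Agent.Y733.LS
open Pool.Agent.Y733.FF Pool.Agent.Y733.UD
open Pool.Agent.W222.UABC (cS_empty)
open Pool.Agent.TH876.FH (GoodAt IsPeriod arch jInv Hj_height Hj_norm)

theorem arch_low {δ : ℝ} (hδ : 0 < δ) : ∃ c : ℝ, 0 ≤ c ∧ ∀ τ : UpperHalfPlane,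
    (1 - δ) * Real.log (max ‖jInv τ‖ 1) ≤ arch τ + c := by
  obtain ⟨c, hc⟩ := Pool.Agent.TH876.FH.ana.1 δ hδ
  refine ⟨|c|, abs_nonneg c, fun τ => ?_⟩
  have h := hc τ
  have h0 : 0 ≤ Real.log (max ‖jInv τ‖ 1) := Real.log_nonneg (le_max_right _ _)
  have h1 : (1 + δ) * ((1 - δ) * Real.log (max ‖jInv τ‖ 1)) ≤ (1 + δ) * (arch τ + |c|) := by
    have h2 : (1 + δ) * ((1 - δ) * Real.log (max ‖jInv τ‖ 1)) =
        Real.log (max ‖jInv τ‖ 1) - δ ^ 2 * Real.log (max ‖jInv τ‖ 1) := by ring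
    have h3 : 0 ≤ δ ^ 2 * Real.log (max ‖jInv τ‖ 1) := by positivity
    have h4 := le_abs_self c
    have h5 : 0 ≤ δ * |c| := by positivity
    nlinarith
  exact le_of_mul_le_mul_left h1 (by linarith)

theorem ex_per {K : Type} [Field K] [NumberField K] (j : K) :
    ∃ τ : InfinitePlace K → UpperHalfPlane, IsPeriod j τ := by
  choose f hf using Pool.Agent.Y729.FW.j_surj
  exact ⟨fun w => f (w.embedding j), fun w => hf _⟩

/-- the local conditions for a linear weight -/
structure Ok (lam a0 b0 b1 a2 b2 : ℝ) : Prop where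
  p1 : b1 ≤ 6 - 2 * lam
  p2 : b1 ≤ 4
  r1 : ∀ r : ℕ, r ≠ 0 → a0 * r + b0 ≤ 4
  r2 : ∀ r : ℕ, r ≠ 0 → r % 3 = 1 → a0 * r + b0 ≤ 8 - 2 * lam
  r3 : ∀ r : ℕ, r ≠ 0 → r % 3 = 2 → a0 * r + b0 ≤ 10 - 2 * lam
  r4 : ∀ r : ℕ, r ≠ 0 → r % 3 = 0 → a0 * r + b0 ≤ 0
  s1 : ∀ s : ℕ, s ≠ 0 → a2 * s + b2 ≤ 4
  s2 : ∀ s : ℕ, s ≠ 0 → s % 2 = 1 → a2 * s + b2 ≤ 9 - 2 * lam
  s3 : ∀ s : ℕ, s ≠ 0 → s % 2 = 0 → a2 * s + b2 ≤ 0

/-- the linear weight -/
noncomputable def wt (a0 b0 b1 a2 b2 : ℝ) (r p s : ℕ) : ℝ :=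
  a0 * r + b0 * ind r + (p + b1 * ind p) + (a2 * s + b2 * ind s)

theorem wt_ok {lam a0 b0 b1 a2 b2 : ℝ} (h : Ok lam a0 b0 b1 a2 b2) (r p s : ℕ)
    (h1 : p ≠ 0 → r = 0 ∧ s = 0) (h2 : r = 0 ∨ s = 0) :
    wt a0 b0 b1 a2 b2 r p s ≤ dd r p s - 2 * lam * bd r p s ∧
      wt a0 b0 b1 a2 b2 r p s ≤ p + 4 := by
  unfold wt dd bd
  by_cases hp : p = 0
  · subst hp
    simp only [ne_eq, not_true_eq_false, if_false]
    rw [ind_zero]
    by_cases hr : r = 0
    · subst hr
      rw [ind_zero]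
      by_cases hs : s = 0
      · subst hs
        rw [ind_zero]
        norm_num
      · rw [ind_pos hs]
        have k1 := h.s1 s hs
        rcases Nat.mod_two_eq_zero_or_one s with hm | hm
        · have k2 := h.s3 s hs hm
          rw [hm]
          norm_num
          constructor <;> linarith
        · have k2 := h.s2 s hs hm
          rw [hm]
          norm_num
          constructor <;> linarith
    · have hs : s = 0 := by
        rcases h2 with h2 | h2
        · exact absurd h2 hr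
        · exact h2
      subst hs
      rw [ind_zero, ind_pos hr]
      have k1 := h.r1 r hr
      have hm : r % 3 = 0 ∨ r % 3 = 1 ∨ r % 3 = 2 := by omega
      rcases hm with hm | hm | hm
      · have k2 := h.r4 r hr hm
        rw [hm]
        norm_num
        constructor <;> linarith
      · have k2 := h.r2 r hr hm
        rw [hm]
        norm_num
        constructor <;> linarith
      · have k2 := h.r3 r hr hm
        rw [hm]
        norm_num
        constructor <;> linarith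
  · obtain ⟨rfl, rfl⟩ := h1 hp
    rw [if_pos hp, if_pos hp, ind_zero, ind_pos hp]
    have k1 := h.p1
    have k2 := h.p2
    push_cast
    constructor <;> linarith

theorem finsum_wt {K : Type} [Field K] [NumberField K] (P : Fin 3 → Idl K)
    (a0 b0 b1 a2 b2 : ℝ) :
    ∑ᶠ v : Pr K, wt a0 b0 b1 a2 b2 (P 0 v) (P 1 v) (P 2 v) * Real.log (Nv v) =
      a0 * len (P 0) + b0 * rl (P 0) + (len (P 1) + b1 * rl (P 1)) +
        (a2 * len (P 2) + b2 * rl (P 2)) := by
  have t0 := supp_idl_fin (P 0) (fun m => (m : ℝ)) (by simp)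
  have t1 := supp_idl_fin (P 1) (fun m => (m : ℝ)) (by simp)
  have t2 := supp_idl_fin (P 2) (fun m => (m : ℝ)) (by simp)
  have u0 := supp_idl_fin (P 0) ind ind_zero
  have u1 := supp_idl_fin (P 1) ind ind_zero
  have u2 := supp_idl_fin (P 2) ind ind_zero
  have e : ∀ v : Pr K, wt a0 b0 b1 a2 b2 (P 0 v) (P 1 v) (P 2 v) * Real.log (Nv v) =
      a0 * ((P 0 v : ℝ) * Real.log (Nv v)) + b0 * (ind (P 0 v) * Real.log (Nv v)) +
      (P 1 v : ℝ) * Real.log (Nv v) + b1 * (ind (P 1 v) * Real.log (Nv v)) +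
      a2 * ((P 2 v : ℝ) * Real.log (Nv v)) + b2 * (ind (P 2 v) * Real.log (Nv v)) := by
    intro v
    unfold wt
    ring
  have s0 := supp_mul a0 t0
  have s1 := supp_mul b0 u0
  have s3 := supp_mul b1 u1
  have s4 := supp_mul a2 t2
  have s5 := supp_mul b2 u2
  have q1 := supp_add s0 s1
  have q2 := supp_add q1 t1
  have q3 := supp_add q2 s3
  have q4 := supp_add q3 s4
  rw [finsum_congr e, sum_add q4 s5, sum_add q3 s4, sum_add q2 s3, sum_add q1 t1, sum_add s0 s1,
    sum_mul _ t0, sum_mul _ u0, sum_mul _ u1, sum_mul _ t2, sum_mul _ u2, finsum_len, finsum_len,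
    finsum_len, finsum_ind, finsum_ind, finsum_ind]
  ring

/-- **a twist with a large height** -/
theorem attain_lin (K : Type) [Field K] [NumberField K] {lam δ : ℝ} (hlam : 0 ≤ lam)
    (hδ : 0 < δ) (hδ1 : δ ≤ 1) : ∃ CK : ℝ, ∀ (x : K) (P : Fin 3 → Idl K), Pt x → IsP ∅ x P →
      ∃ (E : WeierstrassCurve K) (τ : InfinitePlace K → UpperHalfPlane), E.Δ ≠ 0 ∧
        E.c₄ ^ 3 / E.Δ = -1728 * x ∧ IsPeriod (-1728 * x) τ ∧
        ∀ a0 b0 b1 a2 b2 : ℝ, Ok lam a0 b0 b1 a2 b2 →
          a0 * len (P 0) + b0 * rl (P 0) + (len (P 1) + b1 * rl (P 1)) +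
            (a2 * len (P 2) + b2 * rl (P 2)) + (1 - δ) * (ht x - len (P 1)) ≤
          discSum E + ∑ w : InfinitePlace K, (w.mult : ℝ) * arch (τ w) -
            lam * (Real.log (multN E) + Real.log (addN E)) + CK := by
  obtain ⟨c, hc0, hc⟩ := arch_low hδ
  obtain ⟨CK, h⟩ := attain K lam 4 hlam
  refine ⟨CK + c * Module.finrank ℚ K, ?_⟩
  intro x P hx hP
  obtain ⟨E, hE, hj, hW⟩ := h x P hx hP
  obtain ⟨τ, hτ⟩ := ex_per (-1728 * x)
  refine ⟨E, τ, hE, hj, hτ, ?_⟩
  intro a0 b0 b1 a2 b2 hok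
  have h1 := hW (wt a0 b0 b1 a2 b2) (by unfold wt; rw [ind_zero]; simp)
    (fun r p s k1 k2 => wt_ok hok r p s k1 k2)
  rw [finsum_wt] at h1
  have h2 := ht_split hP
  have h3 : (1 - δ) * ∑ w : InfinitePlace K, (w.mult : ℝ) * Real.log (max (w x) 1) ≤
      ∑ w : InfinitePlace K, (w.mult : ℝ) * arch (τ w) + c * Module.finrank ℚ K := by
    rw [Finset.mul_sum]
    have e1 : c * (Module.finrank ℚ K : ℝ) = ∑ w : InfinitePlace K, (w.mult : ℝ) * c := by
      rw [← Finset.sum_mul, sum_mult]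
      ring
    rw [e1, ← Finset.sum_add_distrib]
    refine Finset.sum_le_sum fun w _ => ?_
    have h4 := hc (τ w)
    rw [hτ w, InfinitePlace.norm_embedding_eq] at h4
    have e2 : w (-1728 * x) = 1728 * w x := by
      rw [map_mul]
      have h5 : w (-1728 : K) = w (1728 : K) := w.1.map_neg _
      have e3 : w (1728 : K) = 1728 := by
        have := inf_nat (K := K) w 1728
        exact_mod_cast this
      rw [h5, e3]
    have hm : (1 : ℝ) ≤ max (w x) 1 := le_max_right _ _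
    have h6 : Real.log (max (w x) 1) ≤ Real.log (max (w (-1728 * x)) 1) := by
      refine Real.log_le_log (by linarith) ?_
      rw [e2]
      refine max_le_max ?_ le_rfl
      have := apply_nonneg w x
      linarith
    have h7 : (1 - δ) * Real.log (max (w x) 1) ≤ arch (τ w) + c :=
      (mul_le_mul_of_nonneg_left h6 (by linarith)).trans h4
    have h8 := mul_le_mul_of_nonneg_left h7 (Nat.cast_nonneg (α := ℝ) w.mult)
    linarith
  have h5 : ht x - len (P 1) = ∑ w : InfinitePlace K, (w.mult : ℝ) * Real.log (max (w x) 1) := by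
    rw [h2]
    ring
  rw [h5]
  linarith

/-- the inequality for all curves of invariant `j` -/
def Ups (lam c : ℝ) {K : Type} [Field K] [NumberField K] (j : K) : Prop :=
  ∀ (E : WeierstrassCurve K) (τ : InfinitePlace K → UpperHalfPlane), E.Δ ≠ 0 →
    E.c₄ ^ 3 / E.Δ = j → IsPeriod j τ →
    discSum E + ∑ w : InfinitePlace K, (w.mult : ℝ) * arch (τ w) ≤
      lam * (Real.log (multN E) + Real.log (addN E)) + c

theorem ok_A {t : ℝ} (h0 : 0 ≤ t) (h1 : t ≤ 1) :
    Ok ((9 - t) / 2) 0 (-(1 - t)) (-(3 - t)) 0 0 := by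
  constructor
  · linarith
  · linarith
  · intro r hr; linarith
  · intro r hr h; linarith
  · intro r hr h; linarith
  · intro r hr h; linarith
  · intro s hs; linarith
  · intro s hs h; linarith
  · intro s hs h; linarith

theorem s_odd {t : ℝ} (h0 : 0 ≤ t) {s : ℕ} (hs : s ≠ 0) : -t * s + 2 * t ≤ t := by
  have h : (1 : ℝ) ≤ s := by exact_mod_cast Nat.one_le_iff_ne_zero.2 hs
  nlinarith

theorem s_even {t : ℝ} (h0 : 0 ≤ t) {s : ℕ} (hs : 2 ≤ s) : -t * s + 2 * t ≤ 0 := by
  have h : (2 : ℝ) ≤ s := by exact_mod_cast hs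
  nlinarith

theorem ok_B {t : ℝ} (h0 : 0 ≤ t) (h1 : t ≤ 1) :
    Ok ((9 - t) / 2) 0 (-(1 - t)) (-(3 - t)) (-t) (2 * t) := by
  constructor
  · linarith
  · linarith
  · intro r hr; linarith
  · intro r hr h; linarith
  · intro r hr h; linarith
  · intro r hr h; linarith
  · intro s hs; linarith [s_odd h0 hs]
  · intro s hs h; linarith [s_odd h0 hs]
  · intro s hs h; exact s_even h0 (by omega)

theorem ok_C {t : ℝ} (h0 : 1 ≤ t) (h1 : t ≤ 3 / 2) :
    Ok ((9 - t) / 2) (-(t - 1)) (2 * (t - 1)) (-(3 - t)) (-t) (2 * t) := by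
  have h2 : 0 ≤ t := by linarith
  have h3 : 0 ≤ t - 1 := by linarith
  constructor
  · linarith
  · linarith
  · intro r hr; linarith [s_odd h3 hr]
  · intro r hr h; linarith [s_odd h3 hr]
  · intro r hr h; linarith [s_odd h3 hr]
  · intro r hr h; exact s_even h3 (by omega)
  · intro s hs; linarith [s_odd h2 hs]
  · intro s hs h; linarith [s_odd h2 hs]
  · intro s hs h; exact s_even h2 (by omega)

/-- **integral invariants** -/
theorem int_fin (K : Type) [Field K] [NumberField K] {t : ℝ} (h0 : 0 < t) (h1 : t ≤ 1) (c : ℝ) :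
    ∃ X : ℝ, ∀ x : K, Pt x → (∀ v : Pr K, fv v (-1728 * x) ≤ 1) →
      Ups ((9 - t) / 2) c (-1728 * x) → ht x ≤ X := by
  obtain ⟨CK, h⟩ := attain_lin K (lam := (9 - t) / 2) (δ := t / 2) (by linarith) (by linarith)
    (by linarith)
  have hl2 : 0 ≤ Real.log 2 := Real.log_nonneg (by norm_num)
  refine ⟨(c + CK + 3 * (Module.finrank ℚ K * Real.log 1728) +
    Module.finrank ℚ K * Real.log 2) / (t / 2), ?_⟩
  intro x hx hint hups
  obtain ⟨P, hP⟩ := exists_isP ∅ hx
  obtain ⟨E, τ, hE, hj, hτ, hW⟩ := h x P hx hP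
  have k1 := hW _ _ _ _ _ (ok_A h0.le h1)
  have k2 := hups E τ hE hj hτ
  have b0 := len_le hx hP 0
  rw [cS_empty] at b0
  have b1 := rl_le_len (P 0)
  have b2 := rl_le_len (P 1)
  have b3 := rl_nonneg (P 1)
  have b4 := rl_nonneg (P 0)
  -- the poles
  have b5 : len (P 1) ≤ Module.finrank ℚ K * Real.log 1728 := by
    have e1 := fin_nat (K := K) (n := 1728) (by norm_num)
    push_cast at e1
    have s1 := supp_idl_fin (P 1) (fun m => (m : ℝ)) (by simp)
    have s2 : (Function.support fun v : Pr K => -Real.log (fv v (1728 : K))).Finite := by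
      refine (fv_support_finite (x := (1728 : K)) (by norm_num)).subset ?_
      intro v hv hcon
      apply hv
      show -Real.log (fv v (1728 : K)) = 0
      rw [hcon, Real.log_one, neg_zero]
    have e2 : ∑ᶠ v : Pr K, (P 1 v : ℝ) * Real.log (Nv v) ≤
        ∑ᶠ v : Pr K, -Real.log (fv v (1728 : K)) := by
      refine finsum_le_finsum' s1 s2 fun v => ?_
      have e3 : (P 1 v : ℝ) * Real.log (Nv v) = Real.log (max (fv v x) 1) := by
        rw [(exps hP v).2.2.2.2, Real.log_zpow]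
        push_cast
        ring
      have h1728 : 0 < fv v (1728 : K) := (fv v).pos (by norm_num)
      have h1728' : fv v (1728 : K) ≤ 1 := (fv_Na v).ofNat 1728
      rw [e3, ← Real.log_inv]
      refine Real.log_le_log (lt_max_of_lt_right one_pos) (max_le ?_ ?_)
      · have h4 := hint v
        rw [map_mul, (fv v).map_neg] at h4
        rw [← one_div, le_div_iff₀ h1728]
        linarith
      · exact (one_le_inv₀ h1728).2 h1728'
    rw [finsum_len, finsum_neg_distrib, e1] at e2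
    linarith
  have hx0 := ht_nonneg x
  rw [le_div_iff₀ (by linarith)]
  have hnl : 0 ≤ (Module.finrank ℚ K : ℝ) * Real.log 2 := by positivity
  have c1 : (1 - t) * rl (P 0) ≤ (1 - t) * (ht x + Module.finrank ℚ K * Real.log 2) :=
    mul_le_mul_of_nonneg_left (b1.trans b0) (by linarith)
  have c2 : 0 ≤ t * rl (P 1) := mul_nonneg h0.le b3
  have c3 : 0 ≤ t / 2 * len (P 1) := mul_nonneg (by linarith) (len_nonneg _)
  have c4 : 0 ≤ t * (Module.finrank ℚ K * Real.log 2) := mul_nonneg h0.le hnl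
  linarith

/-- **invariants for which the inequality holds for all twists** -/
theorem ups_count (K : Type) [Field K] [NumberField K] {t : ℝ} (h1 : 1 < t) (h3 : t ≤ 3 / 2)
    (c : ℝ) : ∃ ν M0 : ℝ, 0 < ν ∧ ∀ (X : ℝ) (S : Finset K), 0 ≤ X →
      (∀ x ∈ S, Pt x ∧ ht x ≤ X ∧ Ups ((9 - t) / 2) c (-1728 * x)) →
        (S.card : ℝ) ≤ Real.exp (M0 + (2 - ν) * X) := by
  classical
  set δ : ℝ := t - 1 with hδ
  obtain ⟨CK, h⟩ := attain_lin K (lam := (9 - t) / 2) (δ := δ) (by linarith) (by linarith)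
    (by linarith)
  set ν : ℝ := (t - 1) / (4 * t - 2) with hν
  have hd : 0 < 4 * t - 2 := by linarith
  have hν0 : 0 < ν := div_pos (by linarith) hd
  have hνd : ν * (4 * t - 2) = t - 1 := div_mul_cancel₀ _ hd.ne'
  obtain ⟨A, hA, hcl⟩ := class_card (ε := ν / 2) (by linarith)
  obtain ⟨A', hA', hall⟩ := all_card (ε := 1) one_pos
  set n := Module.finrank ℚ K with hn
  have hn1 : (1 : ℝ) ≤ n := by exact_mod_cast Module.finrank_pos (R := ℚ) (M := K)
  have hl2 : 0 ≤ Real.log 2 := Real.log_nonneg (by norm_num)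
  set X0 : ℝ := (|c| + |CK| + 8 * (n * Real.log 2) + 1) / (t - 1) with hX0
  have hX00 : 0 ≤ X0 := div_nonneg (by positivity) (by linarith)
  refine ⟨ν / 2, n * A + n * Real.log 2 + n * A' + 3 * X0, by linarith, ?_⟩
  intro X S hX hS
  rcases le_or_gt X X0 with hXX | hXX
  · refine (hall K X S fun x hx => ⟨(hS x hx).1, (hS x hx).2.1⟩).trans ?_
    apply Real.exp_le_exp.2
    have e1 : 0 ≤ (n : ℝ) * A := by positivity
    have e2 : 0 ≤ (n : ℝ) * Real.log 2 := by positivity
    have e3 : 0 ≤ (2 - ν / 2) * X := by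
      have : ν ≤ 1 := by
        rw [hν, div_le_one hd]
        linarith
      exact mul_nonneg (by linarith) hX
    linarith
  have hex : ∀ j : K, ∃ P : Fin 3 → Idl K, j ∈ S → IsP ∅ j P := by
    intro j
    by_cases hj : j ∈ S
    · obtain ⟨P, h⟩ := exists_isP ∅ (hS j hj).1
      exact ⟨P, fun _ => h⟩
    · exact ⟨0, fun h => absurd h hj⟩
  choose P hP using hex
  have hclass : ∀ p q : Fin 3, p ≠ q →
      ((S.filter fun x => rl (P x p) + rl (P x q) ≤ (2 - ν) * X).card : ℝ) ≤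
        Real.exp (n * A + (2 - ν) * X + ν / 2 * X) := by
    intro p q hpq
    refine hcl K X ((2 - ν) * X) _ P p q hpq fun x hx => ?_
    obtain ⟨h1, h2⟩ := Finset.mem_filter.1 hx
    obtain ⟨g1, g2, _⟩ := hS x h1
    exact ⟨g1, g2, hP x h1, h2⟩
  have hcov : S ⊆ (S.filter fun x => rl (P x 0) + rl (P x 1) ≤ (2 - ν) * X) ∪
      (S.filter fun x => rl (P x 1) + rl (P x 2) ≤ (2 - ν) * X) := by
    intro x hx
    rw [Finset.mem_union, Finset.mem_filter, Finset.mem_filter]
    by_contra hcon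
    push Not at hcon
    obtain ⟨c1, c2⟩ := hcon
    have c1 := c1 hx
    have c2 := c2 hx
    obtain ⟨g1, g2, g3⟩ := hS x hx
    obtain ⟨E, τ, hE, hj, hτ, hW⟩ := h x (P x) g1 (hP x hx)
    have k1 := hW _ _ _ _ _ (ok_C h1.le h3)
    have k2 := g3 E τ hE hj hτ
    have b0 := len_le g1 (hP x hx) 0
    have b1 := len_le g1 (hP x hx) 1
    have b2 := len_le g1 (hP x hx) 2
    rw [cS_empty] at b0 b1 b2
    have r1 := rl_le_len (P x 1)
    have l1 := len_nonneg (P x 1)
    have hx0 := ht_nonneg x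
    have k3 : (t - 1) * X0 < (t - 1) * X := mul_lt_mul_of_pos_left hXX (by linarith)
    have k4 : (t - 1) * X0 = |c| + |CK| + 8 * (n * Real.log 2) + 1 := by
      rw [hX0]
      have : t - 1 ≠ 0 := by linarith
      field_simp
    have k5 := le_abs_self c
    have k6 := le_abs_self CK
    have hnl : 0 ≤ (n : ℝ) * Real.log 2 := by positivity
    have m1 : 2 * (t - 1) * ((2 - ν) * X) ≤ 2 * (t - 1) * (rl (P x 0) + rl (P x 1)) :=
      mul_le_mul_of_nonneg_left c1.le (by linarith)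
    have m2 : 2 * t * ((2 - ν) * X) ≤ 2 * t * (rl (P x 1) + rl (P x 2)) :=
      mul_le_mul_of_nonneg_left c2.le (by linarith)
    have m3 : (3 * t + 1) * rl (P x 1) ≤ (3 * t + 1) * (ht x + n * Real.log 2) :=
      mul_le_mul_of_nonneg_left (r1.trans b1) (by linarith)
    have m4 : (t - 1) * len (P x 0) ≤ (t - 1) * (ht x + n * Real.log 2) :=
      mul_le_mul_of_nonneg_left b0 (by linarith)
    have m5 : t * len (P x 2) ≤ t * (ht x + n * Real.log 2) :=
      mul_le_mul_of_nonneg_left b2 (by linarith)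
    have m6 : 0 ≤ (t - 1) * len (P x 1) := mul_nonneg (by linarith) l1
    have m7 : (6 * t - 2) * ht x ≤ (6 * t - 2) * X := mul_le_mul_of_nonneg_left g2 (by linarith)
    have m8 : (ν * (4 * t - 2)) * X = (t - 1) * X := by rw [hνd]
    have m9 : t * (n * Real.log 2) ≤ 3 / 2 * (n * Real.log 2) :=
      mul_le_mul_of_nonneg_right h3 hnl
    rw [hδ] at k1
    linarith
  have hcard : (S.card : ℝ) ≤ 2 * Real.exp (n * A + (2 - ν) * X + ν / 2 * X) := by
    have h1 := (Finset.card_le_card hcov).trans (Finset.card_union_le _ _)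
    have h2 : (S.card : ℝ) ≤
      ((S.filter fun x => rl (P x 0) + rl (P x 1) ≤ (2 - ν) * X).card : ℝ) +
      ((S.filter fun x => rl (P x 1) + rl (P x 2) ≤ (2 - ν) * X).card : ℝ) := by
      exact_mod_cast h1
    have := hclass 0 1 (by decide)
    have := hclass 1 2 (by decide)
    linarith
  have h2n : (2 : ℝ) ≤ Real.exp (n * Real.log 2) := by
    have h5 : Real.exp (Real.log 2) ≤ Real.exp (n * Real.log 2) := by
      apply Real.exp_le_exp.2
      nlinarith
    rwa [Real.exp_log (by norm_num)] at h5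
  calc (S.card : ℝ) ≤ 2 * Real.exp (n * A + (2 - ν) * X + ν / 2 * X) := hcard
    _ ≤ Real.exp (n * Real.log 2) * Real.exp (n * A + (2 - ν) * X + ν / 2 * X) :=
        mul_le_mul_of_nonneg_right h2n (Real.exp_pos _).le
    _ = Real.exp (n * Real.log 2 + (n * A + (2 - ν) * X + ν / 2 * X)) := by
        rw [← Real.exp_add]
    _ ≤ _ := by
        apply Real.exp_le_exp.2
        have : 0 ≤ (n : ℝ) * A' := by positivity
        linarith

end Pool.Agent.H85.F
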