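import Mathlib
import Pool.Agent.H85.F.Low

/-!
# Quotients of integral elements: many of them
-/

set_option autoImplicit false
set_option linter.unusedSectionVars false

namespace Pool.Agent.H85.F

open NumberField IsDedekindDomain Pool.Agent.H691R3 Pool.Agent.W223.AK Pool.Agent.Y733.LS
open Pool.Agent.Y733.FF Pool.Agent.Y733.UD
open Pool.Agent.W222.UABC (cS_empty)
open Pool.Agent.TH876.FH (GoodAt IsPeriod arch jInv Hj_height Hj_norm)

theorem fin_small (K : Type) [Field K] [NumberField K] (c : ℝ) :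
    {v : Pr K | Real.log (Nv v) < c}.Finite := by
  have h1 : {I : Ideal (𝓞 K) | Ideal.absNorm I ≤ ⌊Real.exp c⌋₊}.Finite :=
    Ideal.finite_setOfPred_absNorm_le _
  refine Set.Finite.of_finite_image (f := fun v : Pr K => v.asIdeal) (h1.subset ?_) ?_
  · rintro _ ⟨v, hv, rfl⟩
    show Ideal.absNorm v.asIdeal ≤ _
    apply Nat.le_floor
    have h2 : Real.log (Nv v) < c := hv
    rw [Real.log_lt_iff_lt_exp (Nv_pos v)] at h2
    exact h2.le
  · intro v _ w _ h
    exact HeightOneSpectrum.ext h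

theorem div_card (K : Type) [Field K] [NumberField K] {ε : ℝ} (hε : 0 < ε) : ∃ A : ℝ, 0 ≤ A ∧
    ∀ (z : Idl K) (T : Finset (Idl K)), (∀ a ∈ T, ∀ v, a v ≤ z v) →
      (T.card : ℝ) ≤ Real.exp (A + ε * len z) := by
  classical
  set F := (fin_small K (Real.log 2 / ε)).toFinset with hF
  have l2 : 0 < Real.log 2 := Real.log_pos (by norm_num)
  set D : ℝ := 1 + 1 / (ε * Real.log 2) with hD
  have hD1 : 1 ≤ D := by
    have : 0 ≤ 1 / (ε * Real.log 2) := by positivity
    linarith
  refine ⟨F.card * Real.log D, mul_nonneg (Nat.cast_nonneg _) (Real.log_nonneg hD1), ?_⟩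
  intro z T hT
  have hsub : T ⊆ Finset.Icc 0 z := fun a ha => Finset.mem_Icc.2 ⟨bot_le, fun v => hT a ha v⟩
  have hTc : (T.card : ℝ) ≤ ∏ v ∈ z.support, ((Finset.Iic (z v)).card : ℝ) := by
    have h1 := Finset.card_le_card hsub
    rw [Finsupp.card_Icc, Finsupp.support_zero, Finset.empty_union] at h1
    exact_mod_cast h1
  refine hTc.trans ?_
  have key : ∀ v : Pr K, ((Finset.Iic (z v)).card : ℝ) ≤
      Real.exp (ε * (z v * Real.log (Nv v))) * (if v ∈ F then D else 1) := by
    intro v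
    rw [Nat.card_Iic]
    push_cast
    have hl := log_Nv_pos v
    by_cases hv : v ∈ F
    · rw [if_pos hv]
      have h2 : Real.log 2 ≤ Real.log (Nv v) :=
        Real.log_le_log (by norm_num) (two_le_Nv v)
      have h3 := Real.add_one_le_exp (ε * (z v * Real.log (Nv v)))
      have hz : (0 : ℝ) ≤ z v := Nat.cast_nonneg _
      have h4 : ε * (z v * Real.log 2) ≤ ε * (z v * Real.log (Nv v)) := by
        apply mul_le_mul_of_nonneg_left _ hε.le
        exact mul_le_mul_of_nonneg_left h2 hz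
      have h5 : (z v : ℝ) + 1 ≤ (ε * (z v * Real.log 2) + 1) * D := by
        rw [hD]
        have e1 : (ε * (z v * Real.log 2) + 1) * (1 + 1 / (ε * Real.log 2)) =
            z v + 1 + ε * (z v * Real.log 2) + 1 / (ε * Real.log 2) := by
          field_simp
          ring
        rw [e1]
        have e2 : 0 ≤ 1 / (ε * Real.log 2) := by positivity
        have e3 : 0 ≤ ε * (z v * Real.log 2) := by positivity
        linarith
      exact h5.trans (mul_le_mul_of_nonneg_right (by linarith) (by linarith))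
    · rw [if_neg hv, mul_one]
      have h2 : Real.log 2 / ε ≤ Real.log (Nv v) := by
        by_contra hcon
        exact hv ((Set.Finite.mem_toFinset _).2 (not_le.1 hcon))
      rw [div_le_iff₀ hε] at h2
      have hz : (0 : ℝ) ≤ z v := Nat.cast_nonneg _
      have h3 : (z v : ℝ) * Real.log 2 ≤ ε * (z v * Real.log (Nv v)) := by nlinarith
      refine le_trans ?_ (Real.exp_le_exp.2 h3)
      rw [Real.exp_nat_mul, Real.exp_log (by norm_num)]
      have h4 : z v + 1 ≤ 2 ^ z v := Nat.lt_two_pow_self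
      exact_mod_cast h4
  calc ∏ v ∈ z.support, ((Finset.Iic (z v)).card : ℝ)
      ≤ ∏ v ∈ z.support, (Real.exp (ε * (z v * Real.log (Nv v))) * (if v ∈ F then D else 1)) :=
        Finset.prod_le_prod (fun _ _ => Nat.cast_nonneg _) (fun v _ => key v)
    _ = Real.exp (ε * len z) * ∏ v ∈ z.support, (if v ∈ F then D else 1) := by
        rw [Finset.prod_mul_distrib, ← Real.exp_sum, ← Finset.mul_sum]
        rfl
    _ ≤ Real.exp (ε * len z) * Real.exp (F.card * Real.log D) := by
        refine mul_le_mul_of_nonneg_left ?_ (Real.exp_pos _).le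
        rw [Finset.prod_ite_mem, Finset.prod_const, Real.exp_nat_mul, Real.exp_log (by linarith)]
        exact pow_le_pow_right₀ hD1 (Finset.card_le_card Finset.inter_subset_right)
    _ = _ := by
        rw [← Real.exp_add]
        congr 1
        ring

/-- the factors of an element in a box -/
theorem fac_card (K : Type) [Field K] [NumberField K] {ε : ℝ} (hε : 0 < ε) : ∃ A : ℝ, 0 ≤ A ∧
    ∀ (M : ℝ) (z : K) (G : Finset K), 0 ≤ M →
      (∀ b ∈ G, b ≠ 0 ∧ (∀ v : Pr K, fv v b ≤ 1) ∧ (∀ w : InfinitePlace K, w b ≤ Real.exp M) ∧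
        ∃ m : K, m ≠ 0 ∧ (∀ v : Pr K, fv v m ≤ 1) ∧
          (∀ w : InfinitePlace K, w m ≤ Real.exp M) ∧ m * b = z) →
      (G.card : ℝ) ≤ Real.exp (A + ε * M) := by
  classical
  set n := Module.finrank ℚ K with hn
  have hn1 : (1 : ℝ) ≤ n := by exact_mod_cast Module.finrank_pos (R := ℚ) (M := K)
  have hn0 : (0 : ℝ) < n := by linarith
  obtain ⟨A1, hA1, h1⟩ := div_card K (ε := ε / (4 * n)) (by positivity)
  obtain ⟨A2, hA2, h2⟩ := units_card (ε := ε / (8 * n)) (by positivity)
  refine ⟨A1 + n * A2, by positivity, ?_⟩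
  intro M z G hM hG
  rcases G.eq_empty_or_nonempty with hGe | ⟨g0, hg0⟩
  · rw [hGe, Finset.card_empty, Nat.cast_zero]
    positivity
  have hz0 : z ≠ 0 := by
    obtain ⟨b0, b1, b2, m, m0, m1, m2, e⟩ := hG g0 hg0
    rw [← e]
    exact mul_ne_zero m0 b0
  have hz1 : ∀ v : Pr K, fv v z ≤ 1 := by
    obtain ⟨b0, b1, b2, m, m0, m1, m2, e⟩ := hG g0 hg0
    intro v
    rw [← e, map_mul]
    exact mul_le_one₀ (m1 v) ((fv v).nonneg _) (b1 v)
  obtain ⟨Z, hZ, hZl⟩ := exists_P hz0 hz1
  have hlen : len Z ≤ n * (2 * M) := by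
    rw [hZl, ← sum_mult, Finset.sum_mul]
    refine Finset.sum_le_sum fun w _ => mul_le_mul_of_nonneg_left ?_ (Nat.cast_nonneg _)
    obtain ⟨b0, b1, b2, m, m0, m1, m2, e⟩ := hG g0 hg0
    have hw : 0 < w z := InfinitePlace.pos_iff.2 hz0
    rw [Real.log_le_iff_le_exp hw, two_mul, Real.exp_add, ← e, map_mul]
    exact mul_le_mul (m2 w) (b2 w) (apply_nonneg w _) (Real.exp_pos _).le
  have hex : ∀ b : K, ∃ P : Idl K, b ∈ G → ∀ v, fv v b = (Nv v) ^ (-(P v : ℤ)) := by
    intro b
    by_cases hb : b ∈ G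
    · obtain ⟨P, h, _⟩ := exists_P (hG b hb).1 (hG b hb).2.1
      exact ⟨P, fun _ => h⟩
    · exact ⟨0, fun h => absurd h hb⟩
  choose P hP using hex
  have himg : ((G.image P).card : ℝ) ≤ Real.exp (A1 + ε / (4 * n) * len Z) := by
    refine h1 Z _ ?_
    intro a ha v
    obtain ⟨b, hb, rfl⟩ := Finset.mem_image.1 ha
    obtain ⟨b0, b1, b2, m, m0, m1, m2, e⟩ := hG b hb
    have h3 := hP b hb v
    have h4 := hZ v
    rw [← e, map_mul, h3] at h4
    have hN0 := Nv_pos v
    have hNb : 0 < (Nv v) ^ (-(P b v : ℤ)) := zpow_pos hN0 _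
    have h5 : (Nv v) ^ (-(Z v : ℤ)) ≤ (Nv v) ^ (-(P b v : ℤ)) := by
      rw [← h4]
      exact mul_le_of_le_one_left hNb.le (m1 v)
    rw [zpow_le_zpow_iff_right₀ (Nv_one_lt v)] at h5
    omega
  have hht : ∀ b ∈ G, ht b ≤ n * M := by
    intro b hb
    obtain ⟨b0, b1, b2, -⟩ := hG b hb
    rw [ht_int b1, ← sum_mult, Finset.sum_mul]
    refine Finset.sum_le_sum fun w _ => mul_le_mul_of_nonneg_left ?_ (Nat.cast_nonneg _)
    rw [Real.log_le_iff_le_exp (lt_max_of_lt_right one_pos)]
    exact max_le (b2 w) (Real.one_le_exp hM)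
  have hfib : ∀ a ∈ G.image P, ((G.filter fun b => P b = a).card : ℝ) ≤
      Real.exp (n * A2 + ε / (8 * n) * (4 * (n * M))) := by
    intro a _
    set H := G.filter fun b => P b = a with hH
    rcases H.eq_empty_or_nonempty with hHe | ⟨b0, hb0⟩
    · rw [hHe, Finset.card_empty, Nat.cast_zero]
      positivity
    have hHm : ∀ b ∈ H, b ∈ G ∧ P b = a := fun b hb => Finset.mem_filter.1 hb
    obtain ⟨hb0G, hb0a⟩ := hHm b0 hb0
    have hb00 := (hG b0 hb0G).1
    have hinj : Set.InjOn (fun b : K => b / b0) (H : Set K) := fun x _ y _ hxy =>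
      (div_left_inj' hb00).1 hxy
    rw [← Finset.card_image_of_injOn hinj]
    refine h2 K _ _ ?_
    intro y hy
    obtain ⟨b, hb, rfl⟩ := Finset.mem_image.1 hy
    obtain ⟨hbG, hba⟩ := hHm b hb
    have hbne := (hG b hbG).1
    refine ⟨div_ne_zero hbne hb00, ?_, ?_⟩
    · intro v
      rw [map_div₀, hP b hbG v, hP b0 hb0G v, hba, hb0a]
      exact div_self (zpow_ne_zero _ (Nv_pos v).ne')
    · have e1 := sum_abs_log hbne (hG b hbG).2.1
      have e2 := sum_abs_log hb00 (hG b0 hb0G).2.1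
      have e3 := hht b hbG
      have e4 := hht b0 hb0G
      calc ∑ w : InfinitePlace K, (w.mult : ℝ) * |Real.log (w (b / b0))|
          ≤ ∑ w : InfinitePlace K, ((w.mult : ℝ) * |Real.log (w b)| +
              (w.mult : ℝ) * |Real.log (w b0)|) := by
            refine Finset.sum_le_sum fun w _ => ?_
            have hw1 : 0 < w b := InfinitePlace.pos_iff.2 hbne
            have hw2 : 0 < w b0 := InfinitePlace.pos_iff.2 hb00
            rw [map_div₀, Real.log_div hw1.ne' hw2.ne', ← mul_add]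
            exact mul_le_mul_of_nonneg_left (abs_sub _ _) (Nat.cast_nonneg _)
        _ ≤ 4 * (n * M) := by
            rw [Finset.sum_add_distrib]
            linarith
  have hcard : (G.card : ℝ) = ∑ a ∈ G.image P, ((G.filter fun b => P b = a).card : ℝ) := by
    rw [Finset.card_eq_sum_card_image P G]
    push_cast
    rfl
  rw [hcard]
  calc ∑ a ∈ G.image P, ((G.filter fun b => P b = a).card : ℝ)
      ≤ ∑ _a ∈ G.image P, Real.exp (n * A2 + ε / (8 * n) * (4 * (n * M))) :=
        Finset.sum_le_sum hfib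
    _ = ((G.image P).card : ℝ) * Real.exp (n * A2 + ε / (8 * n) * (4 * (n * M))) := by
        rw [Finset.sum_const, nsmul_eq_mul]
    _ ≤ Real.exp (A1 + ε / (4 * n) * len Z) *
          Real.exp (n * A2 + ε / (8 * n) * (4 * (n * M))) :=
        mul_le_mul_of_nonneg_right himg (Real.exp_pos _).le
    _ ≤ _ := by
        rw [← Real.exp_add]
        apply Real.exp_le_exp.2
        have e1 : ε / (4 * n) * len Z ≤ ε / (4 * n) * (n * (2 * M)) :=
          mul_le_mul_of_nonneg_left hlen (by positivity)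
        have e2 : ε / (4 * n) * (n * (2 * M)) = ε / 2 * M := by
          field_simp
          ring
        have e3 : ε / (8 * n) * (4 * (n * M)) = ε / 2 * M := by
          field_simp
          ring
        linarith

open scoped Combinatorics.Additive in
/-- **many quotients** -/
theorem quo_count (K : Type) [Field K] [NumberField K] {ε : ℝ} (hε : 0 < ε) : ∃ A : ℝ, 0 ≤ A ∧
    ∀ (M : ℝ) (S1 S2 : Finset K), 0 ≤ M →
      (∀ b ∈ S1, b ≠ 0 ∧ (∀ v : Pr K, fv v b ≤ 1) ∧ ∀ w : InfinitePlace K, w b ≤ Real.exp M) →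
      (∀ b ∈ S2, b ≠ 0 ∧ (∀ v : Pr K, fv v b ≤ 1) ∧ ∀ w : InfinitePlace K, w b ≤ Real.exp M) →
      ∃ U : Finset K, (∀ x ∈ U, ∃ m ∈ S1, ∃ b ∈ S2, x = m / b) ∧
        (S1.card : ℝ) * S2.card ≤ U.card * Real.exp (A + ε * M) := by
  classical
  obtain ⟨A, hA, h⟩ := fac_card K hε
  refine ⟨A, hA, ?_⟩
  intro M S1 S2 hM h1 h2
  set T : Finset K := S2.image (fun b => b⁻¹) with hT
  have hTc : T.card = S2.card := Finset.card_image_of_injective _ inv_injective
  set U : Finset K := (S1 ×ˢ T).image (fun p => p.1 * p.2) with hU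
  refine ⟨U, ?_, ?_⟩
  · intro x hx
    obtain ⟨p, hp, rfl⟩ := Finset.mem_image.1 hx
    obtain ⟨hp1, hp2⟩ := Finset.mem_product.1 hp
    obtain ⟨b, hb, hb2⟩ := Finset.mem_image.1 hp2
    exact ⟨p.1, hp1, b, hb, by rw [← hb2, div_eq_mul_inv]⟩
  · have hcs := Finset.card_sq_le_card_mul_mulEnergy S1 T U
    have hfil : (S1 ×ˢ T).filter (fun xy => xy.1 * xy.2 ∈ U) = S1 ×ˢ T := by
      refine Finset.filter_true_of_mem fun p hp => ?_
      exact Finset.mem_image.2 ⟨p, hp, rfl⟩
    rw [hfil, Finset.card_product, hTc] at hcs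
    have hen : Finset.mulEnergy S1 T ≤ ⌊Real.exp (A + ε * M)⌋₊ * (S1 ×ˢ T).card := by
      unfold Finset.mulEnergy
      refine Finset.card_le_mul_card_image_of_maps_to (f := fun x => (x.1.1, x.2.2)) ?_ _ ?_
      · intro x hx
        obtain ⟨hx1, hx2⟩ := Finset.mem_filter.1 hx
        obtain ⟨hx3, hx4⟩ := Finset.mem_product.1 hx1
        exact Finset.mem_product.2 ⟨(Finset.mem_product.1 hx3).1, (Finset.mem_product.1 hx4).2⟩
      · rintro ⟨a, b⟩ hab
        obtain ⟨ha, hb⟩ := Finset.mem_product.1 hab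
        apply Nat.le_floor
        set H := ((S1 ×ˢ S1) ×ˢ T ×ˢ T).filter
          (fun x => x.1.1 * x.2.1 = x.1.2 * x.2.2) with hH
        set G := H.filter (fun x => (x.1.1, x.2.2) = (a, b)) with hG
        have hGm : ∀ x ∈ G, x.1.2 ∈ S1 ∧ x.2.1⁻¹ ∈ S2 ∧ x.1.1 = a ∧ x.2.2 = b ∧
            x.1.2 * x.2.1⁻¹ = a * b⁻¹ := by
          intro x hx
          obtain ⟨g1, g2⟩ := Finset.mem_filter.1 hx
          obtain ⟨g3, g4⟩ := Finset.mem_filter.1 g1
          obtain ⟨g5, g6⟩ := Finset.mem_product.1 g3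
          obtain ⟨g7, g8⟩ := Finset.mem_product.1 g5
          obtain ⟨g9, g10⟩ := Finset.mem_product.1 g6
          obtain ⟨g11, g12⟩ := Prod.mk.inj g2
          obtain ⟨c, hc, hc2⟩ := Finset.mem_image.1 g9
          obtain ⟨d, hd, hd2⟩ := Finset.mem_image.1 hb
          have hc0 := (h2 c hc).1
          have hd0 := (h2 d hd).1
          refine ⟨g8, ?_, g11, g12, ?_⟩
          · rw [← hc2, inv_inv]
            exact hc
          · have hd3 : d⁻¹ = b := hd2
            have hb0 : b ≠ 0 := by rw [← hd3]; exact inv_ne_zero hd0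
            rw [g11, g12, ← hc2] at g4
            rw [← hc2, inv_inv, ← div_eq_mul_inv, eq_div_iff hb0, mul_right_comm, ← g4, mul_assoc,
              inv_mul_cancel₀ hc0, mul_one]
        have hinj : Set.InjOn (fun x : (K × K) × K × K => x.2.1⁻¹) (G : Set ((K × K) × K × K)) := by
          intro x hx y hy hxy
          obtain ⟨x1, x2, x3, x4, x5⟩ := hGm x (Finset.mem_coe.1 hx)
          obtain ⟨y1, y2, y3, y4, y5⟩ := hGm y (Finset.mem_coe.1 hy)
          have hxy' : x.2.1⁻¹ = y.2.1⁻¹ := hxy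
          have e1 : x.2.1 = y.2.1 := inv_injective hxy'
          have e2 : x.1.2 = y.1.2 := by
            rw [← y5, ← hxy'] at x5
            exact mul_right_cancel₀ (h2 _ x2).1 x5
          exact Prod.ext (Prod.ext (x3.trans y3.symm) e2) (Prod.ext e1 (x4.trans y4.symm))
        rw [← Finset.card_image_of_injOn hinj]
        refine h M (a * b⁻¹) _ hM ?_
        intro y hy
        obtain ⟨x, hx, rfl⟩ := Finset.mem_image.1 hy
        obtain ⟨x1, x2, x3, x4, x5⟩ := hGm x hx
        obtain ⟨k0, k1, k2⟩ := h2 _ x2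
        obtain ⟨m0, m1, m2⟩ := h1 _ x1
        exact ⟨k0, k1, k2, x.1.2, m0, m1, m2, x5⟩
    rw [Finset.card_product, hTc] at hen
    have hN : (0 : ℝ) ≤ (S1.card : ℝ) * S2.card := by positivity
    have hfl := Nat.floor_le (Real.exp_pos (A + ε * M)).le
    have h3 : ((S1.card : ℝ) * S2.card) ^ 2 ≤
        (U.card : ℝ) * (Real.exp (A + ε * M) * (S1.card * S2.card)) := by
      have h4 : ((S1.card : ℝ) * S2.card) ^ 2 ≤ (U.card : ℝ) * Finset.mulEnergy S1 T := by
        exact_mod_cast hcs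
      have h5 : (Finset.mulEnergy S1 T : ℝ) ≤
          (⌊Real.exp (A + ε * M)⌋₊ : ℝ) * (S1.card * S2.card) := by exact_mod_cast hen
      have h6 : (⌊Real.exp (A + ε * M)⌋₊ : ℝ) * (S1.card * S2.card) ≤
          Real.exp (A + ε * M) * (S1.card * S2.card) := mul_le_mul_of_nonneg_right hfl hN
      exact h4.trans (mul_le_mul_of_nonneg_left (h5.trans h6) (Nat.cast_nonneg _))
    rcases eq_or_lt_of_le hN with h7 | h7
    · rw [← h7]
      positivity
    · have h8 : ((S1.card : ℝ) * S2.card) * ((S1.card : ℝ) * S2.card) ≤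
          ((U.card : ℝ) * Real.exp (A + ε * M)) * ((S1.card : ℝ) * S2.card) := by
        nlinarith
      exact le_of_mul_le_mul_right h8 h7

end Pool.Agent.H85.F
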