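import Mathlib
import Pool.Agent.H85.F.Div

/-!
# Many invariants for which the inequality fails
-/

set_option autoImplicit false
set_option linter.unusedSectionVars false

namespace Pool.Agent.H85.F

open NumberField IsDedekindDomain Pool.Agent.H691R3 Pool.Agent.W223.AK Pool.Agent.Y733.LS
open Pool.Agent.Y733.FF Pool.Agent.Y733.UD
open Pool.Agent.W222.UABC (cS_empty)
open Pool.Agent.TH876.FH (GoodAt IsPeriod arch jInv Hj_height Hj_norm)

section One

variable {K : Type} [Field K] [NumberField K]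

/-- the height of a quotient -/
theorem ht_quo {t b : K} (ht0 : t ≠ 0) (hb : b ≠ 0) (h1 : ∀ v : Pr K, fv v b ≤ 1)
    (h2 : ∀ v : Pr K, fv v (t * b) ≤ 1) {M : ℝ} (h3 : ∀ w : InfinitePlace K, w b ≤ Real.exp M)
    (h4 : ∀ w : InfinitePlace K, w (t * b) ≤ Real.exp M) : ht t ≤ Module.finrank ℚ K * M := by
  obtain ⟨P, -, hP⟩ := exists_ideal ht0 hb h1 h2
  have h5 := len_nonneg P
  have h6 : ∑ w : InfinitePlace K, (w.mult : ℝ) * (Real.log (w b) + Real.log (max (w t) 1)) ≤
      ∑ w : InfinitePlace K, (w.mult : ℝ) * M := by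
    refine Finset.sum_le_sum fun w _ => mul_le_mul_of_nonneg_left ?_ (Nat.cast_nonneg _)
    have hw2 : 0 < w b := InfinitePlace.pos_iff.2 hb
    have hwt : 0 < w t := InfinitePlace.pos_iff.2 ht0
    rcases max_choice (w t) 1 with h | h
    · rw [h, ← Real.log_mul hw2.ne' hwt.ne', ← map_mul, mul_comm b t,
        Real.log_le_iff_le_exp (InfinitePlace.pos_iff.2 (mul_ne_zero ht0 hb))]
      exact h4 w
    · rw [h, Real.log_one, add_zero, Real.log_le_iff_le_exp hw2]
      exact h3 w
  rw [← Finset.sum_mul, sum_mult] at h6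
  linarith

/-- **the zeros and poles of a quotient** -/
theorem quo_rad {x m D : K} (hx : x + 1 = -(m / D))
    {P : Fin 3 → Idl K} (hP : IsP ∅ x P) {Q R : Idl K}
    (hQ : ∀ v, fv v m = (Nv v) ^ (-(Q v : ℤ))) (hR : ∀ v, fv v D = (Nv v) ^ (-(R v : ℤ)))
    {t : ℝ} (h0 : 0 ≤ t) (h1 : t ≤ 1) :
    2 * t * rl Q - (3 - t) * len R ≤ 2 * t * rl (P 2) - (3 - t) * rl (P 1) := by
  have s1 := supp_idl_fin Q ind ind_zero
  have s2 := supp_idl_fin R (fun m => (m : ℝ)) (by simp)
  have s3 := supp_idl_fin (P 2) ind ind_zero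
  have s4 := supp_idl_fin (P 1) ind ind_zero
  have t1 := supp_mul (2 * t) s1
  have t2 := supp_mul (-(3 - t)) s2
  have t3 := supp_mul (2 * t) s3
  have t4 := supp_mul (-(3 - t)) s4
  have key : ∑ᶠ v : Pr K, (2 * t * (ind (Q v) * Real.log (Nv v)) +
      -(3 - t) * ((R v : ℝ) * Real.log (Nv v))) ≤
      ∑ᶠ v : Pr K, (2 * t * (ind (P 2 v) * Real.log (Nv v)) +
        -(3 - t) * (ind (P 1 v) * Real.log (Nv v))) := by
    refine finsum_le_finsum' (supp_add t1 t2) (supp_add t3 t4) fun v => ?_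
    have hN : 1 < Nv v := Nv_one_lt v
    have hN0 : 0 < Nv v := lt_trans one_pos hN
    have hl := log_Nv_pos v
    obtain ⟨e1, e2, -, w2, -⟩ := exps hP v
    rw [hx, (fv v).map_neg, map_div₀, hQ v, hR v, ← zpow_sub₀ hN0.ne'] at w2
    have e3 : (-(Q v : ℤ) - -(R v : ℤ)) = -((P 2 v : ℤ) - (P 1 v : ℤ)) :=
      (zpow_right_injective₀ hN0 hN.ne') w2
    have e4 : 2 * t * ind (Q v) + -(3 - t) * (R v : ℝ) ≤
        2 * t * ind (P 2 v) + -(3 - t) * ind (P 1 v) := by
      by_cases hp : P 1 v = 0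
      · rw [hp, ind_zero]
        rw [hp] at e3
        have e5 : Q v = P 2 v + R v := by omega
        by_cases hr : R v = 0
        · rw [hr, add_zero] at e5
          rw [e5, hr]
          push_cast
          linarith
        · have hr1 : (1 : ℝ) ≤ R v := by exact_mod_cast Nat.one_le_iff_ne_zero.2 hr
          have hq : ind (Q v) = 1 := ind_pos (by omega)
          have hp2 : 0 ≤ ind (P 2 v) := by
            unfold ind
            split_ifs <;> norm_num
          rw [hq]
          have k1 : 0 ≤ 2 * t * ind (P 2 v) := by positivity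
          have k2 : (3 - t) * 1 ≤ (3 - t) * (R v : ℝ) :=
            mul_le_mul_of_nonneg_left hr1 (by linarith)
          linarith
      · obtain ⟨-, p2⟩ := e1 hp
        rw [p2, ind_zero, ind_pos hp]
        rw [p2] at e3
        have e5 : R v = P 1 v + Q v := by omega
        have hp1 : (1 : ℝ) ≤ P 1 v := by exact_mod_cast Nat.one_le_iff_ne_zero.2 hp
        have e6 : (R v : ℝ) = P 1 v + Q v := by rw [e5]; push_cast; ring
        rw [e6]
        by_cases hq : Q v = 0
        · rw [hq, ind_zero]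
          push_cast
          have k2 : (3 - t) * 1 ≤ (3 - t) * (P 1 v : ℝ) :=
            mul_le_mul_of_nonneg_left hp1 (by linarith)
          linarith
        · rw [ind_pos hq]
          have hq1 : (1 : ℝ) ≤ Q v := by exact_mod_cast Nat.one_le_iff_ne_zero.2 hq
          have k2 : (3 - t) * 2 ≤ (3 - t) * ((P 1 v : ℝ) + Q v) :=
            mul_le_mul_of_nonneg_left (by linarith) (by linarith)
          linarith
    have e5 := mul_le_mul_of_nonneg_right e4 hl.le
    linarith
  rw [sum_add t1 t2, sum_add t3 t4, sum_mul _ s1, sum_mul _ s2, sum_mul _ s3, sum_mul _ s4,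
    finsum_ind, finsum_ind, finsum_ind, finsum_len] at key
  linarith

end One

/-- **violations at one quotient** -/
theorem viol_one (K : Type) [Field K] [NumberField K] {t θ c : ℝ} (h0 : 0 < t) (h1 : t ≤ 1)
    (hθ0 : 0 ≤ θ) (hθ1 : θ ≤ 1) (hg : (3 - t) * θ < 2 * t) : ∃ ε1 Y0 : ℝ, 0 < ε1 ∧ ε1 ≤ 1 ∧
    0 ≤ Y0 ∧ ∀ (Y : ℝ) (m b : K) (Q : Idl K), Y0 ≤ Y → m ≠ 0 → b ≠ 0 →
      (∀ v, fv v m = (Nv v) ^ (-(Q v : ℤ))) → (∀ v : Pr K, fv v b ≤ 1) →
      (∀ w : InfinitePlace K, w m ≤ Real.exp Y) →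
      (∀ w : InfinitePlace K, w b ≤ Real.exp (θ * Y)) →
      (1 - ε1) * (Module.finrank ℚ K * Y) ≤ rl Q → m / b ≠ -1728 →
      ht (1728 + m / b) ≤ Module.finrank ℚ K * (Y + Real.log 1729) ∧
        ¬ Ups ((9 - t) / 2) c (1728 + m / b) := by
  set g : ℝ := 2 * t - (3 - t) * θ with hgd
  have hg0 : 0 < g := by linarith
  have hg2 : g ≤ 2 := by
    have : 0 ≤ (3 - t) * θ := mul_nonneg (by linarith) hθ0
    linarith
  obtain ⟨CK, hatt⟩ := attain_lin K (lam := (9 - t) / 2) (δ := g / 4) (by linarith)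
    (by linarith) (by linarith)
  set n := Module.finrank ℚ K with hn
  have hn1 : (1 : ℝ) ≤ n := by exact_mod_cast Module.finrank_pos (R := ℚ) (M := K)
  have hn0 : (0 : ℝ) < n := by linarith
  have l2 : 0 ≤ Real.log 2 := Real.log_nonneg (by norm_num)
  have l28 : 0 ≤ Real.log 1728 := Real.log_nonneg (by norm_num)
  have l29 : 0 ≤ Real.log 1729 := Real.log_nonneg (by norm_num)
  set Y0 : ℝ := 2 * (|c| + |CK| + Real.log 1729 + Real.log 2 + 3 * Real.log 1728 + 1) / g with hY0
  have hY00 : 0 ≤ Y0 := by positivity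
  refine ⟨g / 8, Y0, by linarith, by linarith, hY00, ?_⟩
  intro Y m b Q hY hm hb hQ hbi hmw hbw hrl hne
  have hY1 : 0 ≤ Y := hY00.trans hY
  have hθY : θ * Y ≤ Y := by
    have := mul_le_mul_of_nonneg_right hθ1 hY1
    linarith
  have hmi : ∀ v : Pr K, fv v m ≤ 1 := by
    intro v
    rw [hQ v]
    exact zpow_le_one_of_nonpos₀ (Nv_one_lt v).le (by omega)
  have e1728 : ∀ w : InfinitePlace K, w (1728 : K) = 1728 := by
    intro w
    have := inf_nat (K := K) w 1728
    exact_mod_cast this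
  have eexp : Real.exp (Y + Real.log 1729) = 1729 * Real.exp Y := by
    rw [Real.exp_add, Real.exp_log (by norm_num)]
    ring
  have hbw' : ∀ w : InfinitePlace K, w b ≤ Real.exp Y := fun w =>
    (hbw w).trans (Real.exp_le_exp.2 hθY)
  set j : K := 1728 + m / b with hj
  have hj0 : j ≠ 0 := by
    intro h
    apply hne
    rw [hj] at h
    linear_combination h
  have h1728i : ∀ v : Pr K, fv v (1728 : K) ≤ 1 := fun v => (fv_Na v).ofNat 1728
  have hexpY := Real.exp_pos Y
  constructor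
  · refine ht_quo hj0 hb hbi ?_ ?_ ?_
    · intro v
      have e : j * b = 1728 * b + m := by
        rw [hj]
        field_simp
      rw [e]
      refine (fv_Na v).le_add ?_ (hmi v)
      rw [map_mul]
      exact mul_le_one₀ (h1728i v) ((fv v).nonneg _) (hbi v)
    · intro w
      refine (hbw' w).trans ?_
      rw [eexp]
      linarith
    · intro w
      have e : j * b = 1728 * b + m := by
        rw [hj]
        field_simp
      rw [e, eexp]
      have e5 : w (1728 * b + m) ≤ w (1728 * b) + w m := w.1.add_le _ _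
      rw [map_mul, e1728] at e5
      linarith [hbw' w, hmw w]
  · intro hups
    set x : K := -j / 1728 with hx
    have hjx : -1728 * x = j := by
      rw [hx]
      field_simp
    have hx1 : x + 1 = -(m / (1728 * b)) := by
      rw [hx, hj]
      field_simp
      ring
    have hPt : Pt x := by
      refine ⟨?_, ?_⟩
      · rw [hx]
        exact div_ne_zero (neg_ne_zero.2 hj0) (by norm_num)
      · rw [hx1]
        exact neg_ne_zero.2 (div_ne_zero hm (mul_ne_zero (by norm_num) hb))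
    obtain ⟨P, hP⟩ := exists_isP ∅ hPt
    obtain ⟨E, τ, hE, hEj, hτ, hW⟩ := hatt x P hPt hP
    have k1 := hW _ _ _ _ _ (ok_B h0.le h1)
    rw [hjx] at hEj hτ
    have k2 := hups E τ hE hEj hτ
    have hD0 : (1728 * b : K) ≠ 0 := mul_ne_zero (by norm_num) hb
    have hDi : ∀ v : Pr K, fv v (1728 * b) ≤ 1 := by
      intro v
      rw [map_mul]
      exact mul_le_one₀ (h1728i v) ((fv v).nonneg _) (hbi v)
    obtain ⟨R, hR, hRl⟩ := exists_P hD0 hDi
    have k3 := quo_rad hx1 hP hQ hR h0.le h1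
    have k4 : len R ≤ n * (Real.log 1728 + θ * Y) := by
      rw [hRl, ← sum_mult, Finset.sum_mul]
      refine Finset.sum_le_sum fun w _ => mul_le_mul_of_nonneg_left ?_ (Nat.cast_nonneg _)
      rw [Real.log_le_iff_le_exp (InfinitePlace.pos_iff.2 hD0), Real.exp_add,
        Real.exp_log (by norm_num), map_mul, e1728]
      exact mul_le_mul_of_nonneg_left (hbw w) (by norm_num)
    have k5 : ht x ≤ n * (Y + Real.log 1729) := by
      have e : x * (1728 * b) = -(1728 * b) - m := by
        have h := hx1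
        have : x = -(m / (1728 * b)) - 1 := by linear_combination h
        rw [this]
        field_simp
        ring
      refine ht_quo hPt.1 hD0 hDi ?_ ?_ ?_
      · intro v
        rw [e]
        refine (fv_Na v).le_sub ?_ (hmi v)
        rw [(fv v).map_neg]
        exact hDi v
      · intro w
        rw [map_mul, e1728, eexp]
        linarith [hbw' w]
      · intro w
        rw [e, eexp, sub_eq_add_neg]
        have e5 : w (-(1728 * b) + -m) ≤ w (-(1728 * b)) + w (-m) := w.1.add_le _ _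
        have e3 : w (-(1728 * b)) = w (1728 * b) := w.1.map_neg _
        have e4 : w (-m) = w m := w.1.map_neg _
        rw [e3, e4, map_mul, e1728] at e5
        linarith [hbw' w, hmw w]
    have b0 := len_le hPt hP 0
    have b2 := len_le hPt hP 2
    rw [cS_empty] at b0 b2
    have r0 := rl_le_len (P 0)
    have l1 := len_nonneg (P 1)
    have hx0 := ht_nonneg x
    have hnl : 0 ≤ (n : ℝ) * Real.log 2 := by positivity
    have m1 : (1 - t) * rl (P 0) ≤ (1 - t) * (ht x + n * Real.log 2) :=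
      mul_le_mul_of_nonneg_left (r0.trans b0) (by linarith)
    have m2 : t * len (P 2) ≤ t * (ht x + n * Real.log 2) :=
      mul_le_mul_of_nonneg_left b2 h0.le
    have m3 : 0 ≤ g / 4 * len (P 1) := mul_nonneg (by linarith) l1
    have m4 : g / 4 * ht x ≤ g / 4 * (n * (Y + Real.log 1729)) :=
      mul_le_mul_of_nonneg_left k5 (by linarith)
    have m5 : 2 * t * ((1 - g / 8) * (n * Y)) ≤ 2 * t * rl Q :=
      mul_le_mul_of_nonneg_left hrl (by linarith)
    have m6 : (3 - t) * len R ≤ (3 - t) * (n * (Real.log 1728 + θ * Y)) :=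
      mul_le_mul_of_nonneg_left k4 (by linarith)
    have m7 : g / 2 * Y0 = |c| + |CK| + Real.log 1729 + Real.log 2 + 3 * Real.log 1728 + 1 := by
      rw [hY0]
      field_simp
    have m8 : g / 2 * Y0 ≤ g / 2 * Y := mul_le_mul_of_nonneg_left hY (by linarith)
    have k5' := le_abs_self c
    have k6' := le_abs_self CK
    -- the main term
    have m9 : (g / 2 * Y) * n ≤ n * Y * (g - g / 4 - t * (g / 4)) := by
      have h9 : 0 ≤ (n : ℝ) * Y := by positivity
      have h10 : g / 2 ≤ g - g / 4 - t * (g / 4) := by nlinarith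
      have := mul_le_mul_of_nonneg_left h10 h9
      linarith
    have m10 : n * (g / 4 * Real.log 1729 + Real.log 2 + (3 - t) * Real.log 1728) ≤
        n * (Real.log 1729 + Real.log 2 + 3 * Real.log 1728) := by
      apply mul_le_mul_of_nonneg_left _ hn0.le
      nlinarith
    have m11 : n * (|c| + |CK| + Real.log 1729 + Real.log 2 + 3 * Real.log 1728 + 1) ≤
        n * (g / 2 * Y) := by
      apply mul_le_mul_of_nonneg_left _ hn0.le
      linarith
    have m12 : |c| + |CK| + 1 ≤ n * (|c| + |CK| + 1) := by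
      have : 0 ≤ |c| + |CK| + 1 := by positivity
      nlinarith
    have m13 : n * Y * g = 2 * t * (n * Y) - (3 - t) * (n * (θ * Y)) := by
      rw [hgd]
      ring
    linarith

/-- integral elements of the box with a large radical -/
theorem box_rad (K : Type) [Field K] [NumberField K] {ε : ℝ} (hε : 0 < ε) :
    ∃ A Y0 : ℝ, 0 ≤ A ∧ 0 ≤ Y0 ∧ ∀ Y : ℝ, Y0 ≤ Y → ∃ (S : Finset K) (Q : K → Idl K),
      (∀ b ∈ S, b ≠ 0 ∧ (∀ v : Pr K, fv v b ≤ 1) ∧ (∀ w : InfinitePlace K, w b ≤ Real.exp Y) ∧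
        (∀ v, fv v b = (Nv v) ^ (-(Q b v : ℤ))) ∧
        (1 - ε) * (Module.finrank ℚ K * Y) ≤ rl (Q b)) ∧
      Real.exp (Module.finrank ℚ K * (Y - A)) ≤ S.card := by
  classical
  obtain ⟨A1, hA1, h1⟩ := rad_count (half_pos hε)
  set n := Module.finrank ℚ K with hn
  have hn1 : (1 : ℝ) ≤ n := by exact_mod_cast Module.finrank_pos (R := ℚ) (M := K)
  have hn0 : (0 : ℝ) < n := by linarith
  have l2 : 0 ≤ Real.log 2 := Real.log_nonneg (by norm_num)
  have l4 : 0 ≤ Real.log 4 := Real.log_nonneg (by norm_num)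
  have hrd := rd_nonneg K
  set a : ℝ := Real.log 2 + rd K / 2 with ha
  have ha0 : 0 ≤ a := by positivity
  refine ⟨a + 1, a + Real.log 4 + 2 * (A1 + a + Real.log 4) / ε, by positivity, by positivity, ?_⟩
  intro Y hY
  have hY1 : a + Real.log 4 ≤ Y := by
    have : 0 ≤ 2 * (A1 + a + Real.log 4) / ε := by positivity
    linarith
  have hY2 : 2 * (A1 + a + Real.log 4) / ε ≤ Y := by linarith
  have hY0 : 0 ≤ Y := by linarith
  rw [div_le_iff₀ hε] at hY2
  obtain ⟨S0, hS0, hc0⟩ := exists_box (K := K) Y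
  have hex : ∀ b : K, ∃ P : Idl K, b ∈ S0 → ∀ v, fv v b = (Nv v) ^ (-(P v : ℤ)) := by
    intro b
    by_cases hb : b ∈ S0
    · obtain ⟨h1, ⟨a, ha⟩, h3⟩ := hS0 b hb
      obtain ⟨P, h, _⟩ := exists_P h1 (fun v => by rw [← ha]; exact fv_int_le v a)
      exact ⟨P, fun _ => h⟩
    · exact ⟨0, fun h => absurd h hb⟩
  choose Q hQ using hex
  have hint : ∀ b ∈ S0, ∀ v : Pr K, fv v b ≤ 1 := by
    intro b hb v
    obtain ⟨h1, ⟨a, ha⟩, h3⟩ := hS0 b hb
    rw [← ha]
    exact fv_int_le v a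
  have hht : ∀ b ∈ S0, ht b ≤ n * Y := by
    intro b hb
    obtain ⟨h1, ⟨a, ha⟩, h3⟩ := hS0 b hb
    rw [ht_int (hint b hb), ← sum_mult, Finset.sum_mul]
    refine Finset.sum_le_sum fun w _ => mul_le_mul_of_nonneg_left ?_ (Nat.cast_nonneg _)
    rw [Real.log_le_iff_le_exp (lt_max_of_lt_right one_pos)]
    exact max_le (h3 w).le (Real.one_le_exp hY0)
  set S := S0.filter fun b => (1 - ε) * (n * Y) ≤ rl (Q b) with hS
  set S' := S0.filter fun b => ¬ ((1 - ε) * (n * Y) ≤ rl (Q b)) with hS'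
  have hsplit : (S0.card : ℝ) = S.card + S'.card := by
    have := Finset.card_filter_add_card_filter_not (s := S0)
      (fun b => (1 - ε) * (n * Y) ≤ rl (Q b))
    rw [← this]
    push_cast
    rfl
  have hS'c : (S'.card : ℝ) ≤ Real.exp (n * A1 + (1 - ε) * (n * Y) + ε / 2 * (n * Y)) := by
    refine h1 K (n * Y) ((1 - ε) * (n * Y)) S' Q ?_
    intro b hb
    obtain ⟨k1, k2⟩ := Finset.mem_filter.1 hb
    exact ⟨(hS0 b k1).1, hQ b k1, hht b k1, (not_le.1 k2).le⟩
  refine ⟨S, Q, ?_, ?_⟩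
  · intro b hb
    obtain ⟨k1, k2⟩ := Finset.mem_filter.1 hb
    exact ⟨(hS0 b k1).1, hint b k1, fun w => ((hS0 b k1).2.2 w).le, hQ b k1, k2⟩
  · set y : ℝ := Real.exp (n * (Y - a)) with hy
    have e0 : Real.exp (n * (Y - Real.log 2 - rd K / 2)) = y := by
      rw [hy, ha]
      congr 1
      ring
    rw [e0] at hc0
    have e4 : Real.exp (Real.log 4) = 4 := Real.exp_log (by norm_num)
    have hy4 : 4 ≤ y := by
      rw [← e4, hy]
      apply Real.exp_le_exp.2
      nlinarith
    have hS'' : (S'.card : ℝ) ≤ y / 4 := by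
      refine hS'c.trans ?_
      rw [le_div_iff₀ (by norm_num : (0 : ℝ) < 4), hy]
      have : Real.exp (n * A1 + (1 - ε) * (n * Y) + ε / 2 * (n * Y)) * 4 =
          Real.exp (n * A1 + (1 - ε) * (n * Y) + ε / 2 * (n * Y) + Real.log 4) := by
        rw [Real.exp_add _ (Real.log 4), e4]
      rw [this]
      apply Real.exp_le_exp.2
      have k1 : n * (2 * (A1 + a + Real.log 4)) ≤ n * (Y * ε) :=
        mul_le_mul_of_nonneg_left hY2 hn0.le
      have k2 : Real.log 4 ≤ n * Real.log 4 := by nlinarith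
      linarith
    have hlow : y / 2 ≤ (S.card : ℝ) := by linarith
    refine le_trans ?_ hlow
    have k3 : Real.exp (n * (Y - (a + 1))) = y * Real.exp (-n) := by
      rw [hy, ← Real.exp_add]
      congr 1
      ring
    rw [k3]
    have k4 : Real.exp (-(n : ℝ)) ≤ 1 / 2 := by
      have k5 : Real.exp (-(n : ℝ)) ≤ Real.exp (-1) := Real.exp_le_exp.2 (by linarith)
      have k6 : Real.exp (-1) ≤ 1 / 2 := by
        rw [Real.exp_neg]
        have := Real.add_one_le_exp (1 : ℝ)
        rw [inv_eq_one_div]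
        exact one_div_le_one_div_of_le (by norm_num) (by linarith)
      linarith
    have hy0 : 0 < y := Real.exp_pos _
    nlinarith

/-- **many invariants for which the inequality fails** -/
theorem low_viol (K : Type) [Field K] [NumberField K] {t ε : ℝ} (c : ℝ) (h0 : 0 < t)
    (h1 : t ≤ 1) (hε : 0 < ε) (hε1 : ε ≤ 1) : ∃ M0 : ℝ, 0 ≤ M0 ∧ ∀ M : ℝ, M0 ≤ M →
      ∃ S : Finset K, (∀ j ∈ S, ht j ≤ Module.finrank ℚ K * M ∧ ¬ Ups ((9 - t) / 2) c j) ∧
        Real.exp (Module.finrank ℚ K * M * ((3 + t) / (3 - t) - ε)) ≤ S.card := by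
  classical
  set T0 : ℝ := 2 * t / (3 - t) with hT0
  have h3t : 0 < 3 - t := by linarith
  have hT0m : T0 * (3 - t) = 2 * t := div_mul_cancel₀ _ h3t.ne'
  have hT01 : T0 ≤ 1 := by
    rw [hT0, div_le_one h3t]
    linarith
  have hT00 : 0 < T0 := div_pos (by linarith) h3t
  have hexp : (3 + t) / (3 - t) = 1 + T0 := by
    rw [hT0]
    field_simp
    ring
  set θ : ℝ := max (T0 - ε / 2) 0 with hθ
  have hθ0 : 0 ≤ θ := le_max_right _ _
  have hθ1 : θ ≤ 1 := max_le (by linarith) zero_le_one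
  have hθT : T0 - ε / 2 ≤ θ := le_max_left _ _
  have hθT' : θ < T0 := max_lt (by linarith) hT00
  have hg : (3 - t) * θ < 2 * t := by
    rw [← hT0m, mul_comm]
    exact mul_lt_mul_of_pos_right hθT' h3t
  obtain ⟨ε1, Y1, hε10, hε11, hY10, hviol⟩ := viol_one K (c := c) h0 h1 hθ0 hθ1 hg
  obtain ⟨A3, Y3, hA3, hY30, hbox⟩ := box_rad K hε10
  set n := Module.finrank ℚ K with hn
  have hn1 : (1 : ℝ) ≤ n := by exact_mod_cast Module.finrank_pos (R := ℚ) (M := K)
  have hn0 : (0 : ℝ) < n := by linarith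
  obtain ⟨A2, hA2, hquo⟩ := quo_count K (ε := n * (ε / 8)) (by positivity)
  have l2 : 0 ≤ Real.log 2 := Real.log_nonneg (by norm_num)
  have l29 : 0 ≤ Real.log 1729 := Real.log_nonneg (by norm_num)
  have hrd := rd_nonneg K
  set a : ℝ := Real.log 2 + rd K / 2 with ha
  have ha0 : 0 ≤ a := by positivity
  set Y4 : ℝ := 8 * (A3 + a + 1 + A2 + Real.log 2 + 2 * Real.log 1729) / ε with hY4
  have hY40 : 0 ≤ Y4 := by positivity
  refine ⟨Real.log 1729 + Y1 + Y3 + Y4, by positivity, ?_⟩
  intro M hM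
  set Y : ℝ := M - Real.log 1729 with hYd
  have hMY : M = Y + Real.log 1729 := by rw [hYd]; ring
  have hYY1 : Y1 ≤ Y := by linarith
  have hYY3 : Y3 ≤ Y := by linarith
  have hYY4 : Y4 ≤ Y := by linarith
  have hY0 : 0 ≤ Y := by linarith
  obtain ⟨S1, Q, hS1, hS1c⟩ := hbox Y hYY3
  obtain ⟨S2', hS2', hS2c'⟩ := exists_box (K := K) (θ * Y)
  have hθY0 : 0 ≤ θ * Y := mul_nonneg hθ0 hY0
  have hθY : θ * Y ≤ Y := by
    have := mul_le_mul_of_nonneg_right hθ1 hY0
    linarith
  set S2 := insert (1 : K) S2' with hS2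
  have hS2m : ∀ b ∈ S2, b ≠ 0 ∧ (∀ v : Pr K, fv v b ≤ 1) ∧
      ∀ w : InfinitePlace K, w b ≤ Real.exp (θ * Y) := by
    intro b hb
    rcases Finset.mem_insert.1 hb with rfl | hb
    · refine ⟨one_ne_zero, fun v => by rw [map_one], fun w => ?_⟩
      have : w (1 : K) = 1 := w.1.map_one
      rw [this]
      exact Real.one_le_exp hθY0
    · obtain ⟨k1, ⟨a, ha⟩, k3⟩ := hS2' b hb
      exact ⟨k1, fun v => by rw [← ha]; exact fv_int_le v a, fun w => (k3 w).le⟩
  have hS2c : Real.exp (n * (θ * Y - (a + 1))) ≤ S2.card := by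
    set y : ℝ := Real.exp (n * (θ * Y - a)) with hy
    have e0 : Real.exp (n * (θ * Y - Real.log 2 - rd K / 2)) = y := by
      rw [hy, ha]
      congr 1
      ring
    rw [e0] at hS2c'
    have k1 : (S2'.card : ℝ) ≤ S2.card := by
      exact_mod_cast Finset.card_le_card (Finset.subset_insert _ _)
    have k2 : (1 : ℝ) ≤ S2.card := by
      have : 0 < S2.card := Finset.card_pos.2 ⟨1, Finset.mem_insert_self _ _⟩
      exact_mod_cast this
    have hlow : y / 2 ≤ (S2.card : ℝ) := by
      rcases le_total y 2 with h | h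
      · linarith
      · linarith
    refine le_trans ?_ hlow
    have k3 : Real.exp (n * (θ * Y - (a + 1))) = y * Real.exp (-n) := by
      rw [hy, ← Real.exp_add]
      congr 1
      ring
    rw [k3]
    have k4 : Real.exp (-(n : ℝ)) ≤ 1 / 2 := by
      have k5 : Real.exp (-(n : ℝ)) ≤ Real.exp (-1) := Real.exp_le_exp.2 (by linarith)
      have k6 : Real.exp (-1) ≤ 1 / 2 := by
        rw [Real.exp_neg]
        have := Real.add_one_le_exp (1 : ℝ)
        rw [inv_eq_one_div]
        exact one_div_le_one_div_of_le (by norm_num) (by linarith)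
      linarith
    have hy0 : 0 < y := Real.exp_pos _
    nlinarith
  obtain ⟨U, hU, hUc⟩ := hquo Y S1 S2 hY0 (fun b hb => ⟨(hS1 b hb).1, (hS1 b hb).2.1,
    (hS1 b hb).2.2.1⟩) (fun b hb => ⟨(hS2m b hb).1, (hS2m b hb).2.1,
    fun w => ((hS2m b hb).2.2 w).trans (Real.exp_le_exp.2 hθY)⟩)
  set S := (U.erase (-1728)).image (fun u => 1728 + u) with hS
  refine ⟨S, ?_, ?_⟩
  · intro j hj
    obtain ⟨u, hu, rfl⟩ := Finset.mem_image.1 hj
    obtain ⟨hu1, hu2⟩ := Finset.mem_erase.1 hu
    obtain ⟨m, hm, b, hb, rfl⟩ := hU u hu2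
    obtain ⟨m0, m1, m2, m3, m4⟩ := hS1 m hm
    obtain ⟨b0, b1, b2⟩ := hS2m b hb
    have k := hviol Y m b (Q m) hYY1 m0 b0 m3 b1 m2 b2 m4 hu1
    rw [hMY]
    exact k
  · have hSc : S.card = (U.erase (-1728)).card :=
      Finset.card_image_of_injective _ (add_right_injective _)
    have k1 : (U.card : ℝ) ≤ S.card + 1 := by
      rw [hSc]
      have := Finset.pred_card_le_card_erase (s := U) (a := (-1728 : K))
      exact_mod_cast (by omega : U.card ≤ (U.erase (-1728)).card + 1)
    have k2 : Real.exp (n * (Y - A3) + n * (θ * Y - (a + 1)) - (A2 + n * (ε / 8) * Y)) ≤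
        U.card := by
      rw [Real.exp_sub, Real.exp_add, div_le_iff₀ (Real.exp_pos _)]
      refine le_trans ?_ hUc
      exact mul_le_mul hS1c hS2c (Real.exp_pos _).le (Nat.cast_nonneg _)
    set z : ℝ := Real.exp (n * M * ((3 + t) / (3 - t) - ε)) with hz
    have hz1 : 1 ≤ z := by
      rw [hz, hexp]
      apply Real.one_le_exp
      have : 0 ≤ M := by linarith
      exact mul_nonneg (by positivity) (by linarith)
    have k3 : z * 2 ≤ U.card := by
      refine le_trans ?_ k2
      have e2 : (2 : ℝ) = Real.exp (Real.log 2) := (Real.exp_log (by norm_num)).symm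
      have : z * 2 = Real.exp (n * M * ((3 + t) / (3 - t) - ε) + Real.log 2) := by
        rw [Real.exp_add, ← e2]
      rw [this]
      apply Real.exp_le_exp.2
      rw [hexp, hMY]
      have hnY : 0 ≤ (n : ℝ) * Y := by positivity
      have q1 : n * Y * (T0 - ε / 2) ≤ n * Y * θ := mul_le_mul_of_nonneg_left hθT hnY
      have q2 : ε * Y4 = 8 * (A3 + a + 1 + A2 + Real.log 2 + 2 * Real.log 1729) := by
        rw [hY4]
        field_simp
      have q3 : ε * Y4 ≤ ε * Y := mul_le_mul_of_nonneg_left hYY4 hε.le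
      have q4 : n * (8 * (A3 + a + 1 + A2 + Real.log 2 + 2 * Real.log 1729)) ≤ n * (ε * Y) := by
        apply mul_le_mul_of_nonneg_left _ hn0.le
        linarith
      have q5 : A2 + Real.log 2 ≤ n * (A2 + Real.log 2) := by
        have : 0 ≤ A2 + Real.log 2 := by positivity
        nlinarith
      have q6 : n * Real.log 1729 * (1 + T0 - ε) ≤ n * Real.log 1729 * 2 :=
        mul_le_mul_of_nonneg_left (by linarith) (by positivity)
      nlinarith
    linarith

end Pool.Agent.H85.F
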